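import Mathlib

/-!
# Relations between odd functions, and the Schwartz-Zippel lemma
-/

set_option autoImplicit false

namespace Pool.Agent.Helper43x.ZO

section half

variable {J : Type} [Fintype J] (c : J → J) (hc : ∀ j, c (c j) = j) (hc' : ∀ j, c j ≠ j)

/-- representatives for the orbits of an involution -/
def Half (c : J → J) : Type := {j : J // WellOrderingRel j (c j)}

noncomputable instance : Fintype (Half c) := by
  classical
  exact Subtype.fintype _

noncomputable instance : DecidableEq (Half c) := Classical.decEq _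

include hc hc' in
theorem not_rel_iff (j : J) : ¬ WellOrderingRel j (c j) ↔ WellOrderingRel (c j) (c (c j)) := by
  rw [hc]
  constructor
  · intro h
    rcases trichotomous_of WellOrderingRel j (c j) with h' | h' | h'
    · exact absurd h' h
    · exact absurd h'.symm (hc' j)
    · exact h'
  · intro h h'
    exact asymm_of WellOrderingRel h h'

include hc hc' in
theorem sum_half {M : Type*} [AddCommMonoid M] (f : J → M) :
    ∑ j, f j = ∑ h : Half c, (f h.1 + f (c h.1)) := by
  classical
  rw [← Finset.sum_filter_add_sum_filter_not Finset.univ (fun j => WellOrderingRel j (c j)) f,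
    Finset.sum_add_distrib]
  congr 1
  · exact Finset.sum_subtype _ (fun x => by simp) f
  · refine Eq.trans ?_ (Finset.sum_subtype (Finset.univ.filter fun j => WellOrderingRel j (c j))
      (p := fun j => WellOrderingRel j (c j)) (fun x => by simp) (fun j => f (c j)))
    refine Finset.sum_bij' (fun σ _ => c σ) (fun σ _ => c σ) ?_ ?_ ?_ ?_ ?_
    · intro σ hσ
      rw [Finset.mem_filter] at hσ ⊢
      exact ⟨Finset.mem_univ _, (not_rel_iff c hc hc' σ).1 hσ.2⟩
    · intro σ hσ
      rw [Finset.mem_filter] at hσ ⊢
      refine ⟨Finset.mem_univ _, (not_rel_iff c hc hc' _).2 ?_⟩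
      rw [hc]
      exact hσ.2
    · intro σ _
      exact hc σ
    · intro σ _
      exact hc σ
    · intro σ _
      rw [hc]

include hc hc' in
theorem card_half : Fintype.card (Half c) = Fintype.card J / 2 := by
  have h1 := sum_half c hc hc' (fun _ => (1 : ℕ))
  simp only [Finset.sum_const, Finset.card_univ, smul_eq_mul, mul_one] at h1
  omega

/-- there is no odd relation between the values of the functions `D e` -/
def NoRel (c : J → J) {E : Type*} {F : Type*} [Field F] (D : E → J → F) : Prop :=
  ∀ a : J → F, (∀ j, a (c j) = - a j) → (∀ e, ∑ j, a j * D e j = 0) → a = 0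

variable {E : Type*} {F : Type*} [Field F] [CharZero F] {D : E → J → F}

/-- a minor -/
def minor (c : J → J) (D : E → J → F) (f : Half c → E) : Matrix (Half c) (Half c) F :=
  Matrix.of fun h h' => D (f h) h'.1

include hc hc' in
theorem sum_odd (hD : ∀ e j, D e (c j) = - D e j) (a : J → F) (ha : ∀ j, a (c j) = - a j) (e : E) :
    ∑ j, a j * D e j = 2 * ∑ h : Half c, a h.1 * D e h.1 := by
  rw [sum_half c hc hc', Finset.mul_sum]
  refine Finset.sum_congr rfl fun h _ => ?_
  rw [ha, hD]
  ring

include hc hc' in
theorem norel_of_det (hD : ∀ e j, D e (c j) = - D e j) (f : Half c → E)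
    (hdet : (minor c D f).det ≠ 0) : NoRel c D := by
  intro a ha hrel
  have h1 : (minor c D f).mulVec (fun h => a h.1) = 0 := by
    funext h
    have h2 := hrel (f h)
    rw [sum_odd c hc hc' hD a ha] at h2
    have h3 := (mul_eq_zero.1 h2).resolve_left two_ne_zero
    rw [Pi.zero_apply, ← h3, Matrix.mulVec, dotProduct]
    exact Finset.sum_congr rfl fun h' _ => mul_comm _ _
  have h2 := Matrix.eq_zero_of_mulVec_eq_zero hdet h1
  funext j
  by_cases hj : WellOrderingRel j (c j)
  · exact congrFun h2 ⟨j, hj⟩
  · have h3 := congrFun h2 ⟨c j, (not_rel_iff c hc hc' j).1 hj⟩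
    have h4 : a (c j) = 0 := h3
    rw [ha, neg_eq_zero] at h4
    exact h4

include hc hc' in
theorem det_of_norel (hD : ∀ e j, D e (c j) = - D e j) (h : NoRel c D) :
    ∃ f : Half c → E, (minor c D f).det ≠ 0 := by
  classical
  let v : E → (Half c → F) := fun e h => D e h.1
  have hspan : Submodule.span F (Set.range v) = ⊤ := by
    by_contra hne
    obtain ⟨φ, hφ0, hφ⟩ := Submodule.exists_le_ker_of_lt_top _ (lt_top_iff_ne_top.2 hne)
    apply hφ0
    let b : Half c → F := fun h => φ (Pi.single h 1)
    have hφb : ∀ w : Half c → F, φ w = ∑ h, b h * w h := by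
      intro w
      have h1 : w = ∑ h, w h • (Pi.single h (1 : F) : Half c → F) := by
        funext k
        rw [Finset.sum_apply, Finset.sum_eq_single k]
        · simp
        · intro b _ hb
          simp [Pi.single_eq_of_ne (Ne.symm hb)]
        · intro h
          exact absurd (Finset.mem_univ _) h
      conv_lhs => rw [h1]
      rw [map_sum]
      refine Finset.sum_congr rfl fun h _ => ?_
      rw [map_smul, smul_eq_mul, mul_comm]
    let a : J → F := fun j => if hj : WellOrderingRel j (c j) then b ⟨j, hj⟩ else
      - b ⟨c j, (not_rel_iff c hc hc' j).1 hj⟩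
    have hab : ∀ h : Half c, a h.1 = b h := fun h => dif_pos h.2
    have ha : ∀ j, a (c j) = - a j := by
      intro j
      by_cases hj : WellOrderingRel j (c j)
      · have h1 : ¬ WellOrderingRel (c j) (c (c j)) := by
          rw [hc]
          exact asymm_of WellOrderingRel hj
        simp only [a]
        rw [dif_neg h1, dif_pos hj]
        congr 2
        exact Subtype.ext (hc j)
      · have h1 := (not_rel_iff c hc hc' j).1 hj
        simp only [a]
        rw [dif_pos h1, dif_neg hj, neg_neg]
    have h0 := h a ha (fun e => by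
      rw [sum_odd c hc hc' hD a ha]
      have h1 : φ (v e) = 0 := hφ (Submodule.subset_span ⟨e, rfl⟩)
      rw [hφb] at h1
      have h2 : ∑ h : Half c, a h.1 * D e h.1 = 0 := by
        rw [← h1]
        exact Finset.sum_congr rfl fun h _ => by rw [hab]
      rw [h2, mul_zero])
    apply LinearMap.ext
    intro w
    rw [hφb, LinearMap.zero_apply]
    refine Finset.sum_eq_zero fun h _ => ?_
    rw [← hab, h0, Pi.zero_apply, zero_mul]
  obtain ⟨g, hg1, hg2, hg3⟩ := Submodule.exists_fun_fin_finrank_span_eq F (Set.range v)
  have hcard : Fintype.card (Half c) = Fintype.card (Fin (Module.finrank F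
      (Submodule.span F (Set.range v)))) := by
    rw [Fintype.card_fin, hspan, finrank_top, Module.finrank_fintype_fun_eq_card]
  let ε := Fintype.equivOfCardEq hcard
  choose f hf using fun h : Half c => hg1 (ε h)
  refine ⟨f, ?_⟩
  have h1 : LinearIndependent F (minor c D f).row := by
    have h2 : (minor c D f).row = g ∘ ε := by
      funext h h'
      have h3 := congrFun (hf h) h'
      exact h3
    rw [h2]
    exact hg3.comp ε ε.injective
  have h2 := Matrix.linearIndependent_rows_iff_isUnit.1 h1
  rw [Matrix.isUnit_iff_isUnit_det] at h2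
  exact h2.ne_zero

include hc hc' in
/-- relations can be chosen integral -/
theorem norel_cast {ν : E → J → ℚ} (hν : ∀ e j, ν e (c j) = - ν e j) (L : ℝ) (hL : L ≠ 0)
    (h : NoRel c ν) : NoRel c (fun e j => (ν e j : ℝ) * L) := by
  obtain ⟨f, hf⟩ := det_of_norel c hc hc' hν h
  refine norel_of_det c hc hc' (fun e j => by rw [hν]; push_cast; ring) f ?_
  have h1 : minor c (fun e j => (ν e j : ℝ) * L) f =
      L • (minor c ν f).map (algebraMap ℚ ℝ) := by
    ext h h'
    simp [minor, mul_comm]
  rw [h1, Matrix.det_smul, ← RingHom.mapMatrix_apply, ← RingHom.map_det]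
  exact mul_ne_zero (pow_ne_zero _ hL) ((map_ne_zero _).2 hf)

omit [Fintype J] in
theorem exists_denominator [Finite J] (a : J → ℚ) : ∃ N : ℕ, 0 < N ∧ ∃ n : J → ℤ, ∀ j,
    (n j : ℚ) = N * a j := by
  classical
  cases nonempty_fintype J
  refine ⟨∏ j, (a j).den, Finset.prod_pos fun j _ => (a j).pos, fun j =>
    (a j).num * ∏ k ∈ Finset.univ.erase j, ((a k).den : ℤ), fun j => ?_⟩
  rw [← Finset.mul_prod_erase _ _ (Finset.mem_univ j)]
  push_cast
  have h1 := Rat.den_mul_eq_num (a j)
  calc ((a j).num : ℚ) * ∏ k ∈ Finset.univ.erase j, ((a k).den : ℚ)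
      = ((a j).den * a j) * ∏ k ∈ Finset.univ.erase j, ((a k).den : ℚ) := by rw [h1]
    _ = _ := by ring

theorem norel_of_int {ν : E → J → ℚ}
    (h : ∀ n : J → ℤ, (∀ j, n (c j) = - n j) → (∀ e, ∑ j, (n j : ℚ) * ν e j = 0) → n = 0) :
    NoRel c ν := by
  intro a ha hrel
  obtain ⟨N, hN, n, hn⟩ := exists_denominator a
  have hN' : (N : ℚ) ≠ 0 := by exact_mod_cast hN.ne'
  have h1 := h n (fun j => by
    have h2 : (n (c j) : ℚ) = - n j := by rw [hn, hn, ha]; ring
    exact_mod_cast h2) (fun e => by
    have h2 : ∑ j, (n j : ℚ) * ν e j = N * ∑ j, a j * ν e j := by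
      rw [Finset.mul_sum]
      exact Finset.sum_congr rfl fun j _ => by rw [hn]; ring
    rw [h2, hrel, mul_zero])
  funext j
  have h2 := hn j
  rw [h1, Pi.zero_apply, Int.cast_zero] at h2
  exact (mul_eq_zero.1 h2.symm).resolve_left hN'

end half

section poly

open MvPolynomial

variable {H : Type} [Fintype H] [DecidableEq H] {S : Type} [Fintype S] (u r : S → ℝ)
  (T : H → H → S → ℤ)

/-- the determinant as a function of the parameters -/
noncomputable def detFun (t : S → ℝ) : ℝ :=
  (Matrix.of fun h h' => ∑ s, t s * T h h' s : Matrix H H ℝ).det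

/-- the polynomial -/
noncomputable def detPoly : MvPolynomial S ℝ :=
  (Matrix.of fun h h' => ∑ s, (C (u s) - C (r s) * X s) * C (T h h' s : ℝ) :
    Matrix H H (MvPolynomial S ℝ)).det

theorem eval_detPoly (x : S → ℝ) :
    eval x (detPoly u r T) = detFun T (fun s => u s - r s * x s) := by
  unfold detPoly detFun
  rw [RingHom.map_det]
  congr 1
  ext h h'
  simp

theorem totalDegree_det {R : Type*} [CommRing R] (M : Matrix H H (MvPolynomial S R))
    (hM : ∀ h h', (M h h').totalDegree ≤ 1) : M.det.totalDegree ≤ Fintype.card H := by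
  rw [Matrix.det_apply]
  refine (totalDegree_finsetSum _ _).trans (Finset.sup_le fun σ _ => ?_)
  refine (totalDegree_smul_le _ _).trans ?_
  refine (totalDegree_finsetProd _ _).trans ?_
  refine (Finset.sum_le_sum fun h _ => hM (σ h) h).trans ?_
  simp

theorem totalDegree_detPoly : (detPoly u r T).totalDegree ≤ Fintype.card H := by
  apply totalDegree_det
  intro h h'
  rw [Matrix.of_apply]
  refine (totalDegree_finsetSum _ _).trans (Finset.sup_le fun s _ => ?_)
  refine (totalDegree_mul _ _).trans ?_
  rw [totalDegree_C, add_zero]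
  refine (totalDegree_sub _ _).trans (max_le ?_ ?_)
  · rw [totalDegree_C]
    exact Nat.zero_le _
  · refine (totalDegree_mul _ _).trans ?_
    rw [totalDegree_C, zero_add]
    exact (totalDegree_X (R := ℝ) s).le

theorem detPoly_ne_zero (hr : ∀ s, r s ≠ 0) (t : S → ℝ) (ht : detFun T t ≠ 0) :
    detPoly u r T ≠ 0 := by
  intro h
  apply ht
  have h1 := eval_detPoly u r T (fun s => (u s - t s) / r s)
  rw [h, map_zero] at h1
  rw [h1]
  congr 1
  funext s
  field_simp [hr s]
  ring

/-- Schwartz-Zippel for boxes of integral points -/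
theorem zeros_le (hr : ∀ s, r s ≠ 0) (t : S → ℝ) (ht : detFun T t ≠ 0) (G : S → Finset ℤ) (k : ℕ)
    (hG : ∀ s, k ≤ (G s).card) [DecidableEq S]
    [DecidablePred fun m : S → ℤ => detFun T (fun s => u s - r s * m s) = 0] :
    ((Fintype.piFinset G).filter fun m => detFun T (fun s => u s - r s * m s) = 0).card * k ≤
      (Fintype.piFinset G).card * Fintype.card H := by
  classical
  rcases Nat.eq_zero_or_pos k with hk | hk
  · rw [hk, mul_zero]
    exact Nat.zero_le _
  have hP0 := detPoly_ne_zero u r T hr t ht
  set P := detPoly u r T with hP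
  let ε := Fintype.equivFin S
  let n := Fintype.card S
  let Q : MvPolynomial (Fin n) ℝ := rename ε P
  have hQ0 : Q ≠ 0 := fun h => hP0 (rename_injective ε ε.injective (h.trans (map_zero _).symm))
  let G' : Fin n → Finset ℝ := fun i => (G (ε.symm i)).map ⟨fun z : ℤ => (z : ℝ), Int.cast_injective⟩
  have hG' : ∀ i, (G' i).card = (G (ε.symm i)).card := fun i => Finset.card_map _
  have hmain := schwartz_zippel_sup_sum hQ0 G'
  have hprod : ∏ i, (G' i).card = (Fintype.piFinset G).card := by
    rw [Fintype.card_piFinset, ← Equiv.prod_comp ε.symm]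
    exact Finset.prod_congr rfl fun i _ => hG' i
  have hsup : (Q.support.sup fun s ↦ ∑ i, ((s i : NNRat) / ((G' i).card : NNRat))) ≤
      (Fintype.card H : NNRat) / k := by
    refine Finset.sup_le fun s hs => ?_
    calc ∑ i, ((s i : NNRat) / ((G' i).card : NNRat)) ≤ ∑ i, ((s i : NNRat) / k) := by
          refine Finset.sum_le_sum fun i _ => ?_
          rw [hG']
          have h1 : (k : NNRat) ≤ ((G (ε.symm i)).card : NNRat) := by exact_mod_cast hG _
          have h2 : (0 : NNRat) < k := by exact_mod_cast hk
          gcongr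
      _ = ((∑ i, s i : ℕ) : NNRat) / k := by
          rw [← Finset.sum_div]
          push_cast
          rfl
      _ ≤ _ := by
          have h2 : (0 : NNRat) < k := by exact_mod_cast hk
          have h3 : ∑ i, s i ≤ Fintype.card H := by
            have h4 : s.sum (fun _ e => e) ≤ Q.totalDegree := le_totalDegree hs
            have h5 : Q.totalDegree ≤ P.totalDegree := totalDegree_rename_le _ _
            have h6 : P.totalDegree ≤ Fintype.card H := totalDegree_detPoly u r T
            rw [Finsupp.sum_fintype _ _ (fun _ => rfl)] at h4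
            omega
          have h4 : ((∑ i, s i : ℕ) : NNRat) ≤ (Fintype.card H : NNRat) := by exact_mod_cast h3
          gcongr
  have h1 := hmain.trans hsup
  have hcardeq : ((Fintype.piFinset G).filter
      fun m => detFun T (fun s => u s - r s * m s) = 0).card ≤
      ((Fintype.piFinset G').filter fun x => eval x Q = 0).card := by
    refine Finset.card_le_card_of_injOn (fun m i => ((m (ε.symm i) : ℤ) : ℝ)) ?_ ?_
    · intro m hm
      rw [Finset.mem_coe, Finset.mem_filter, Fintype.mem_piFinset] at hm
      rw [Finset.mem_coe, Finset.mem_filter, Fintype.mem_piFinset]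
      refine ⟨fun i => ?_, ?_⟩
      · simp only [G', Finset.mem_map, Function.Embedding.coeFn_mk]
        exact ⟨m (ε.symm i), hm.1 _, rfl⟩
      · simp only [Q]
        rw [eval_rename, hP, eval_detPoly, ← hm.2]
        congr 1
        funext s
        simp [Function.comp]
    · intro m _ m' _ h
      funext s
      have h2 := congrFun h (ε s)
      simp only [Equiv.symm_apply_apply] at h2
      exact_mod_cast h2
  have hpos : 0 < (Fintype.piFinset G).card := by
    rw [Fintype.card_piFinset]
    exact Finset.prod_pos fun s _ => hk.trans_le (hG s)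
  have h2 : (((Fintype.piFinset G').filter fun x => eval x Q = 0).card : NNRat) /
      ((Fintype.piFinset G).card : NNRat) ≤ (Fintype.card H : NNRat) / k := by
    rw [← hprod]
    push_cast
    exact h1
  have hk' : (0 : NNRat) < k := by exact_mod_cast hk
  have hpos' : (0 : NNRat) < (Fintype.piFinset G).card := by exact_mod_cast hpos
  rw [div_le_div_iff₀ hpos' hk'] at h2
  have h3 : ((Fintype.piFinset G').filter fun x => eval x Q = 0).card * k ≤
      Fintype.card H * (Fintype.piFinset G).card := by exact_mod_cast h2
  calc _ ≤ ((Fintype.piFinset G').filter fun x => eval x Q = 0).card * k :=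
        Nat.mul_le_mul_right _ hcardeq
    _ ≤ _ := by rw [mul_comm (Fintype.piFinset G).card]; exact h3

/-- There is an integral point where the determinant does not vanish. -/
theorem exists_int_det (hr : ∀ s, r s ≠ 0) (t : S → ℝ) (ht : detFun T t ≠ 0) :
    ∃ m : S → ℤ, detFun T (fun s => u s - r s * m s) ≠ 0 := by
  classical
  by_contra hcon
  push Not at hcon
  have h1 := zeros_le u r T hr t ht (fun _ => (Finset.range (Fintype.card H + 1)).map
    Nat.castEmbedding) (Fintype.card H + 1) (fun s => by simp)
  rw [Finset.filter_true_of_mem (fun m _ => hcon m)] at h1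
  have hpos : 0 < (Fintype.piFinset (fun _ : S => (Finset.range (Fintype.card H + 1)).map
    (Nat.castEmbedding : ℕ ↪ ℤ))).card := by
    rw [Fintype.card_piFinset]
    exact Finset.prod_pos fun s _ => by simp
  have h2 := Nat.le_of_mul_le_mul_left h1 hpos
  omega

end poly

end Pool.Agent.Helper43x.ZO
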