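import Mathlib
import Pool.Agent.H485R3.Exact.ExoticMain

/-!
# Weil numbers and the places above `p`
-/

set_option autoImplicit false

namespace Pool.Agent.Helper43x.ZO

open NumberField NumberField.IsCMField Pool.Agent.H485R3 Pool.Agent.H925R2

section

variable {K : Type} [Field K] [NumberField K] (p : ℕ) [Fact p.Prime]

theorem principal_pow (P : Ideal (𝓞 K)) (hP : P ≠ ⊥) :
    ∃ γ : 𝓞 K, γ ≠ 0 ∧ P ^ classNumber K = Ideal.span {γ} := by
  have hmem : P ∈ nonZeroDivisors (Ideal (𝓞 K)) := mem_nonZeroDivisors_of_ne_zero hP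
  have h1 : ClassGroup.mk0 (⟨P, hmem⟩ ^ Fintype.card (ClassGroup (𝓞 K))) = 1 := by
    rw [map_pow, pow_card_eq_one]
  have hpow : P ^ Fintype.card (ClassGroup (𝓞 K)) ∈ nonZeroDivisors (Ideal (𝓞 K)) :=
    pow_mem hmem _
  have h2 : (P ^ Fintype.card (ClassGroup (𝓞 K))).IsPrincipal := by
    rw [← ClassGroup.mk0_eq_one_iff hpow, ← h1]
    rfl
  obtain ⟨γ, hγ⟩ := h2.principal
  have hγ' : P ^ Fintype.card (ClassGroup (𝓞 K)) = Ideal.span {γ} := hγ
  refine ⟨γ, ?_, hγ'⟩
  rintro rfl
  rw [Ideal.span_singleton_eq_bot.2 rfl] at hγ'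
  exact hP (eq_zero_of_pow_eq_zero hγ')

theorem classNumber_pos : 0 < classNumber K := Fintype.card_pos

omit [NumberField K] in
theorem coe_ne_zero {γ : 𝓞 K} (h : γ ≠ 0) : algebraMap (𝓞 K) K γ ≠ 0 := by
  intro h1
  exact h ((FaithfulSMul.algebraMap_injective (𝓞 K) K) (h1.trans (map_zero _).symm))

theorem norm_eq_one_of_not_mem (y : K →+* PadicAlgCl p) (b : 𝓞 K) (hb : b ∉ primeOf p y) :
    ‖y (algebraMap (𝓞 K) K b)‖ = 1 :=
  le_antisymm (norm_int_le p y b) (not_lt.1 hb)

theorem log_norm_p : Real.log ‖(p : PadicAlgCl p)‖ = - Real.log p := by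
  rw [Exact.norm_p_padic, Real.log_inv]

/-- a generator of a power of the prime of `x` -/
theorem exists_gen (x : K →+* PadicAlgCl p) :
    ∃ (γ : 𝓞 K) (m₀ : ℕ), γ ≠ 0 ∧ 0 < m₀ ∧ primeOf p x ^ classNumber K = Ideal.span {γ} ∧
      (∃ d : 𝓞 K, (p : 𝓞 K) ^ classNumber K = γ * d) ∧
      (∀ y : K →+* PadicAlgCl p, primeOf p y = primeOf p x →
        m₀ * Real.log ‖y (algebraMap (𝓞 K) K γ)‖ = - (classNumber K * Real.log p)) ∧
      (∀ y : K →+* PadicAlgCl p, primeOf p y ≠ primeOf p x →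
        ‖y (algebraMap (𝓞 K) K γ)‖ = 1) := by
  obtain ⟨γ, hγ0, hγ⟩ := principal_pow (primeOf p x) (primeOf_ne_bot p x)
  have hP0 := primeOf_ne_bot p x
  have hPp := primeOf_isPrime p x
  have hh : 0 < classNumber K := classNumber_pos
  have hp0 : (p : 𝓞 K) ≠ 0 := by exact_mod_cast (Fact.out : p.Prime).ne_zero
  obtain ⟨m₀, b, hm, hb⟩ := pow_decomp' (primeOf p x) hP0 hPp _ γ hγ0 hγ (p : 𝓞 K) hp0
  refine ⟨γ, m₀, hγ0, ?_, hγ, ?_, ?_, ?_⟩
  · rcases Nat.eq_zero_or_pos m₀ with h0 | h0
    · exfalso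
      apply hb
      rw [h0, pow_zero, one_mul] at hm
      rw [← hm]
      exact Ideal.pow_le_self hh.ne' (Ideal.pow_mem_pow (p_mem_primeOf p x) _)
    · exact h0
  · have h1 : (p : 𝓞 K) ^ classNumber K ∈ primeOf p x ^ classNumber K :=
      Ideal.pow_mem_pow (p_mem_primeOf p x) _
    rw [hγ, Ideal.mem_span_singleton'] at h1
    obtain ⟨d, hd⟩ := h1
    exact ⟨d, by rw [← hd, mul_comm]⟩
  · intro y hy
    have h1 := congrArg (fun z => Real.log ‖y (algebraMap (𝓞 K) K z)‖) hm
    have hb1 : ‖y (algebraMap (𝓞 K) K b)‖ = 1 := norm_eq_one_of_not_mem p y b (by rwa [hy])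
    simp only [map_pow, map_mul, map_natCast, norm_pow, norm_mul, hb1, mul_one,
      Real.log_pow, log_norm_p] at h1
    linarith
  · intro y hy
    by_contra hne
    apply hy
    have hlt : ‖y (algebraMap (𝓞 K) K γ)‖ < 1 := lt_of_le_of_ne (norm_int_le p y γ) hne
    have hPy := primeOf_isPrime p y
    have hle : primeOf p x ≤ primeOf p y := by
      apply Ideal.IsPrime.le_of_pow_le (n := classNumber K)
      rw [hγ, Ideal.span_singleton_le_iff_mem]
      exact hlt
    exact ((hPp.isMaximal hP0).eq_of_le hPy.ne_top hle).symm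

theorem exists_rat_int (x : K →+* PadicAlgCl p) (z : 𝓞 K) (hz : z ≠ 0) :
    ∃ r : ℚ, ∀ y : K →+* PadicAlgCl p, primeOf p y = primeOf p x →
      Real.log ‖y (algebraMap (𝓞 K) K z)‖ = r * Real.log p := by
  obtain ⟨γ, m₀, hγ0, hm0, hγ, -, h1, -⟩ := exists_gen p x
  have hP0 := primeOf_ne_bot p x
  have hPp := primeOf_isPrime p x
  have hh : 0 < classNumber K := classNumber_pos
  obtain ⟨m, b, hm, hb⟩ := pow_decomp' (primeOf p x) hP0 hPp _ γ hγ0 hγ z hz
  refine ⟨- m / m₀, fun y hy => ?_⟩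
  have h2 := congrArg (fun z => Real.log ‖y (algebraMap (𝓞 K) K z)‖) hm
  have hb1 : ‖y (algebraMap (𝓞 K) K b)‖ = 1 := norm_eq_one_of_not_mem p y b (by rwa [hy])
  simp only [map_pow, map_mul, norm_pow, norm_mul, hb1, mul_one, Real.log_pow] at h2
  have h3 := h1 y hy
  have hm' : (m₀ : ℝ) ≠ 0 := by exact_mod_cast hm0.ne'
  have hh' : (classNumber K : ℝ) ≠ 0 := by exact_mod_cast hh.ne'
  push_cast
  rw [div_mul_eq_mul_div, eq_div_iff hm']
  apply mul_left_cancel₀ hh'
  calc (classNumber K : ℝ) * (Real.log ‖y (algebraMap (𝓞 K) K z)‖ * m₀)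
      = (classNumber K * Real.log ‖y (algebraMap (𝓞 K) K z)‖) * m₀ := by ring
    _ = m * (m₀ * Real.log ‖y (algebraMap (𝓞 K) K γ)‖) := by rw [h2]; ring
    _ = _ := by rw [h3]; ring

/-- the absolute value depends only on the prime ideal, and it is a rational power of `p` -/
theorem exists_rat (x : K →+* PadicAlgCl p) (z : K) (hz : z ≠ 0) :
    ∃ r : ℚ, ∀ y : K →+* PadicAlgCl p, primeOf p y = primeOf p x →
      Real.log ‖y z‖ = r * Real.log p := by
  obtain ⟨a, b, hb, rfl⟩ := IsFractionRing.div_surjective (A := 𝓞 K) z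
  have hb0 : b ≠ 0 := nonZeroDivisors.ne_zero hb
  have ha0 : a ≠ 0 := by
    rintro rfl
    rw [map_zero, zero_div] at hz
    exact hz rfl
  obtain ⟨r, hr⟩ := exists_rat_int p x a ha0
  obtain ⟨r', hr'⟩ := exists_rat_int p x b hb0
  refine ⟨r - r', fun y hy => ?_⟩
  rw [map_div₀, norm_div, Real.log_div, hr y hy, hr' y hy]
  · push_cast
    ring
  · exact norm_ne_zero_iff.2 ((map_ne_zero y).2 (coe_ne_zero ha0))
  · exact norm_ne_zero_iff.2 ((map_ne_zero y).2 (coe_ne_zero hb0))

theorem norm_eq_of_primeOf_eq (x y : K →+* PadicAlgCl p) (h : primeOf p x = primeOf p y) (z : K) :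
    ‖x z‖ = ‖y z‖ := by
  by_cases hz : z = 0
  · rw [hz, map_zero, map_zero]
  obtain ⟨r, hr⟩ := exists_rat p x z hz
  have h1 := (hr x rfl).trans (hr y h.symm).symm
  exact Real.log_injOn_pos (Set.mem_Ioi.2 (norm_pos_iff.2 ((map_ne_zero x).2 hz)))
    (Set.mem_Ioi.2 (norm_pos_iff.2 ((map_ne_zero y).2 hz))) h1

theorem primeOf_eq_of_norm_eq (x y : K →+* PadicAlgCl p) (h : ∀ z, ‖x z‖ = ‖y z‖) :
    primeOf p x = primeOf p y := by
  ext z
  rw [mem_primeOf, mem_primeOf, h]

/-- the integrality criterion -/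
theorem isIntegral_of_norms (z : K)
    (h : ∀ (l : ℕ) [Fact l.Prime] (y : K →+* PadicAlgCl l), ‖y z‖ ≤ 1) : IsIntegral ℤ z := by
  obtain ⟨A, _, _, _, _⟩ := exists_algClosure
  have : IsAlgClosure ℚ A := ⟨inferInstance, inferInstance⟩
  have : Normal ℚ A := IsAlgClosure.normal ℚ A
  let τ : K →ₐ[ℚ] A := IsAlgClosed.lift
  have h1 : IsIntegral ℤ (τ z) :=
    isIntegral_of_norm_le (τ z) fun l _ e => h l (e.toRingHom.comp τ.toRingHom)
  exact (isIntegral_algHom_iff (τ.restrictScalars ℤ) τ.toRingHom.injective).1 h1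

end

section cm

variable {K : Type} [Field K] [NumberField K] [IsCMField K] (p : ℕ) [Fact p.Prime]

/-- composition with the complex conjugation -/
noncomputable def bar {A : Type*} [Semiring A] (y : K →+* A) : K →+* A :=
  y.comp (complexConj K : K →+* K)

theorem bar_apply {A : Type*} [Semiring A] (y : K →+* A) (z : K) :
    bar y z = y (complexConj K z) := rfl

theorem bar_bar {A : Type*} [Semiring A] (y : K →+* A) : bar (bar y) = y := by
  ext z
  rw [bar_apply, bar_apply, complexConj_apply_apply]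

theorem bar_ne {A : Type*} [Ring A] [Nontrivial A] (y : K →+* A) : bar y ≠ y := by
  intro h
  apply complexConj_ne_one K
  ext z
  apply y.injective
  exact congrArg (fun f : K →+* A => f z) h

/-- the conjugate ideal -/
noncomputable def barI (P : Ideal (𝓞 K)) : Ideal (𝓞 K) :=
  Ideal.comap (ringOfIntegersComplexConj K) P

theorem primeOf_bar (y : K →+* PadicAlgCl p) : primeOf p (bar y) = barI (primeOf p y) := by
  ext z
  rw [mem_primeOf, barI, Ideal.mem_comap, mem_primeOf]
  rfl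

theorem barI_barI (P : Ideal (𝓞 K)) : barI (barI P) = P := by
  ext z
  rw [barI, barI, Ideal.mem_comap, Ideal.mem_comap]
  have h1 : (ringOfIntegersComplexConj K) ((ringOfIntegersComplexConj K) z) = z := by
    apply (FaithfulSMul.algebraMap_injective (𝓞 K) K)
    change complexConj K (complexConj K (algebraMap (𝓞 K) K z)) = algebraMap (𝓞 K) K z
    exact complexConj_apply_apply K _
  rw [h1]

/-- the places up to conjugation, with the exception of the self-conjugate ones -/
def HP (p : ℕ) [Fact p.Prime] (K : Type) [Field K] [NumberField K] [IsCMField K] : Type :=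
  {P : Ideal (𝓞 K) // (∃ y : K →+* PadicAlgCl p, primeOf p y = P) ∧ WellOrderingRel P (barI P)}

instance : Finite (HP p K) := by
  classical
  have h1 : Set.Finite {P : Ideal (𝓞 K) | ∃ y : K →+* PadicAlgCl p, primeOf p y = P} :=
    Set.finite_range (primeOf p)
  have h2 : Set.Finite {P : Ideal (𝓞 K) | (∃ y : K →+* PadicAlgCl p, primeOf p y = P) ∧
      WellOrderingRel P (barI P)} := h1.subset fun P hP => hP.1
  exact h2.to_subtype

noncomputable instance : Fintype (HP p K) := Fintype.ofFinite _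

noncomputable instance : DecidableEq (HP p K) := Classical.decEq _

/-- a representative -/
noncomputable def HP.emb (s : HP p K) : K →+* PadicAlgCl p := s.2.1.choose

theorem HP.primeOf_emb (s : HP p K) : primeOf p (HP.emb p s) = s.1 := s.2.1.choose_spec

theorem HP.bar_ne (s : HP p K) : barI s.1 ≠ s.1 := by
  intro h
  have h1 := s.2.2
  rw [h] at h1
  exact irrefl_of WellOrderingRel _ h1

open Classical in
/-- the sign of an embedding -/
noncomputable def HP.sg (s : HP p K) (y : K →+* PadicAlgCl p) : ℤ :=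
  if primeOf p y = s.1 then 1 else if primeOf p (bar y) = s.1 then -1 else 0

theorem HP.sg_bar (s : HP p K) (y : K →+* PadicAlgCl p) :
    HP.sg p s (bar y) = - HP.sg p s y := by
  unfold HP.sg
  rw [bar_bar]
  by_cases h1 : primeOf p y = s.1
  · have h2 : primeOf p (bar y) ≠ s.1 := by
      rw [primeOf_bar, h1]
      exact s.bar_ne
    simp [h1, h2]
  · by_cases h2 : primeOf p (bar y) = s.1
    · simp [h1, h2]
    · simp [h1, h2]

theorem HP.sg_congr (s : HP p K) (y y' : K →+* PadicAlgCl p) (h : primeOf p y = primeOf p y') :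
    HP.sg p s y = HP.sg p s y' := by
  unfold HP.sg
  rw [primeOf_bar, primeOf_bar, h]

theorem HP.sg_emb (s s' : HP p K) : HP.sg p s (HP.emb p s') = if s = s' then 1 else 0 := by
  unfold HP.sg
  rw [primeOf_bar, HP.primeOf_emb]
  by_cases h : s = s'
  · simp [h]
  · have h1 : s'.1 ≠ s.1 := fun h1 => h (Subtype.ext h1.symm)
    have h2 : barI s'.1 ≠ s.1 := by
      intro h2
      have h3 := s.2.2
      rw [← h2, barI_barI] at h3
      exact asymm_of WellOrderingRel h3 s'.2.2
    simp [h, h1, h2]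

/-- odd functions of the place are combinations of the signs -/
theorem HP.sum_sg (D : (K →+* PadicAlgCl p) → ℝ) (hD : ∀ y, D (bar y) = - D y)
    (hD' : ∀ y y', primeOf p y = primeOf p y' → D y = D y') (y : K →+* PadicAlgCl p) :
    D y = ∑ s : HP p K, D (HP.emb p s) * HP.sg p s y := by
  have key : ∀ y : K →+* PadicAlgCl p, WellOrderingRel (primeOf p y) (barI (primeOf p y)) →
      D y = ∑ s : HP p K, D (HP.emb p s) * HP.sg p s y := by
    intro y h
    let s₀ : HP p K := ⟨primeOf p y, ⟨y, rfl⟩, h⟩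
    have h1 : primeOf p (HP.emb p s₀) = primeOf p y := HP.primeOf_emb p s₀
    rw [Finset.sum_eq_single s₀]
    · rw [← HP.sg_congr p s₀ _ _ h1, HP.sg_emb, if_pos rfl, hD' _ _ h1]
      simp
    · intro s _ hs
      rw [← HP.sg_congr p s _ _ h1, HP.sg_emb, if_neg hs]
      simp
    · intro h
      exact absurd (Finset.mem_univ _) h
  rcases trichotomous_of WellOrderingRel (primeOf p y) (barI (primeOf p y)) with h | h | h
  · exact key y h
  · have h0 : primeOf p (bar y) = primeOf p y := by rw [primeOf_bar, ← h]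
    have h1 : D y = 0 := by
      have h2 := hD y
      rw [hD' _ _ h0] at h2
      linarith
    rw [h1]
    refine (Finset.sum_eq_zero fun s _ => ?_).symm
    have h2 : HP.sg p s y = 0 := by
      have h3 := HP.sg_bar p s y
      rw [HP.sg_congr p s _ _ h0] at h3
      omega
    rw [h2]
    simp
  · have h1 := key (bar y) (by rwa [primeOf_bar, barI_barI])
    rw [hD] at h1
    have h2 : ∑ s : HP p K, D (HP.emb p s) * HP.sg p s (bar y) =
        - ∑ s : HP p K, D (HP.emb p s) * HP.sg p s y := by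
      rw [← Finset.sum_neg_distrib]
      refine Finset.sum_congr rfl fun s _ => ?_
      rw [HP.sg_bar]
      push_cast
      ring
    rw [h2] at h1
    linarith

/-- the `p`-unit of absolute value one attached to a place -/
theorem HP.exists_eta (s : HP p K) : ∃ (η : K) (r : ℝ), η ≠ 0 ∧ 0 < r ∧
    r ≤ classNumber K * Real.log p ∧ (∀ φ : K →+* ℂ, ‖φ η‖ = 1) ∧
    (∀ (l : ℕ) [Fact l.Prime], l ≠ p → ∀ y : K →+* PadicAlgCl l, ‖y η‖ = 1) ∧
    ∀ y : K →+* PadicAlgCl p, Real.log ‖y η‖ = - r * HP.sg p s y := by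
  obtain ⟨γ, m₀, hγ0, hm0, hγ, ⟨d, hd⟩, h1, h2⟩ := exists_gen p (HP.emb p s)
  rw [HP.primeOf_emb] at h1 h2
  set g : K := algebraMap (𝓞 K) K γ with hg
  have hg0 : g ≠ 0 := coe_ne_zero hγ0
  have hcg0 : complexConj K g ≠ 0 := (map_ne_zero _).2 hg0
  have hp1 : 1 < (p : ℝ) := by exact_mod_cast (Fact.out : p.Prime).one_lt
  have hlog : 0 < Real.log p := Real.log_pos hp1
  have hm0' : (0 : ℝ) < m₀ := by exact_mod_cast hm0
  have hh' : (0 : ℝ) < classNumber K := by exact_mod_cast (classNumber_pos (K := K))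
  refine ⟨g / complexConj K g, classNumber K * Real.log p / m₀, div_ne_zero hg0 hcg0,
    by positivity, ?_, ?_, ?_, ?_⟩
  · rw [div_le_iff₀ hm0']
    have h3 : (1 : ℝ) ≤ m₀ := by exact_mod_cast hm0
    have h4 : 0 < (classNumber K : ℝ) * Real.log p := by positivity
    nlinarith
  · intro φ
    rw [map_div₀, norm_div, complexEmbedding_complexConj, Complex.norm_conj]
    exact div_self (norm_ne_zero_iff.2 ((map_ne_zero φ).2 hg0))
  · intro l _ hl y
    have h3 : ∀ y : K →+* PadicAlgCl l, ‖y g‖ = 1 := by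
      intro y
      have h4 : ‖y g‖ ≤ 1 := norm_int_le l y γ
      have h5 : ‖y (algebraMap (𝓞 K) K d)‖ ≤ 1 := norm_int_le l y d
      have h6 : ‖y g‖ * ‖y (algebraMap (𝓞 K) K d)‖ = 1 := by
        rw [← norm_mul, ← map_mul, hg, ← map_mul, ← hd, map_pow, map_natCast, map_pow,
          map_natCast, norm_pow]
        have h4 : (p : PadicAlgCl l) = algebraMap ℚ_[l] (PadicAlgCl l) (p : ℚ_[l]) := by simp
        rw [h4, PadicAlgCl.norm_extends]
        have h5 : ‖(p : ℚ_[l])‖ = 1 := by
          rw [Padic.norm_natCast_eq_one_iff]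
          exact (Nat.coprime_primes (Fact.out : l.Prime) (Fact.out : p.Prime)).2 hl
        rw [h5, one_pow]
      nlinarith [norm_nonneg (y g), norm_nonneg (y (algebraMap (𝓞 K) K d))]
    rw [map_div₀, norm_div, h3 y]
    have h4 := h3 (bar y)
    rw [bar_apply] at h4
    rw [h4, div_one]
  · intro y
    have h3 : ∀ y : K →+* PadicAlgCl p, Real.log ‖y g‖ =
        - (classNumber K * Real.log p / m₀) * (if primeOf p y = s.1 then 1 else 0) := by
      intro y
      split_ifs with h
      · have h4 := h1 y h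
        rw [mul_one, ← neg_div, eq_div_iff hm0'.ne', mul_comm, h4]
      · rw [h2 y h, Real.log_one, mul_zero]
    have h4 := h3 (bar y)
    rw [bar_apply] at h4
    rw [map_div₀, norm_div, Real.log_div (norm_ne_zero_iff.2 ((map_ne_zero y).2 hg0))
      (norm_ne_zero_iff.2 ((map_ne_zero y).2 hcg0)), h3 y, h4]
    unfold HP.sg
    by_cases h5 : primeOf p y = s.1
    · have h6 : primeOf p (bar y) ≠ s.1 := by
        rw [primeOf_bar, h5]
        exact s.bar_ne
      simp [h5, h6]
    · by_cases h6 : primeOf p (bar y) = s.1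
      · simp [h5, h6]
      · simp [h5, h6]

end cm

end Pool.Agent.Helper43x.ZO
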