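import Mathlib
import Pool.Agent.Helper43x.ZO.Place
import Pool.Agent.Helper43x.ZO.Lin

/-!
# Tate classes and relations between embeddings
-/

set_option autoImplicit false

namespace Pool.Agent.Helper43x.ZO

open NumberField NumberField.IsCMField Pool.Agent.H485R3 Pool.Agent.H925R2
open Pool.Agent.H485R3.Exact (ldev ldev_conj norm_p_padic norm_eq_one_of_ne)

section defs

variable {I : Type} {K : I → Type} [∀ i, Field (K i)]

/-- a family of Weil numbers -/
def WeilTuple (p a : ℕ) (π : ∀ i, K i) : Prop :=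
  ∀ i, IsIntegral ℤ (π i) ∧ ∀ φ : K i →+* ℂ, ‖φ (π i)‖ ^ 2 = (p : ℝ) ^ a

/-- the powers of the conjugates are different -/
def Separated (π : ∀ i, K i) : Prop :=
  ∀ n : ℕ, 0 < n → Function.Injective fun x : Σ i, K i →+* ℂ => x.2 (π x.1) ^ n

/-- all Tate classes are generated in degree two -/
def Generated (π : ∀ i, K i) (Q : ℕ) : Prop :=
  ∀ {Ω V : Type} [Field Ω] [IsAlgClosed Ω] [CharZero Ω] [AddCommGroup V] [Module Ω V]
    (F : V →ₗ[Ω] V),
    Submodule.span Ω {v : V | ∃ i, ∃ σ : K i →+* Ω, F v = σ (π i) • v} = ⊤ →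
    ∀ (m s : ℕ), 0 < s → ∀ x ∈ ⋀[Ω]^(2 * m) V,
      ExteriorAlgebra.map (F ^ s) x = ((Q : Ω) ^ m) ^ s • x →
      x ∈ Algebra.adjoin Ω {y : ExteriorAlgebra Ω V |
        y ∈ ⋀[Ω]^2 V ∧ ExteriorAlgebra.map F y = (Q : Ω) • y}

end defs

theorem exists_factor' {K : Type} [Field K] [NumberField K] {A : Type*} [Field A] [CharZero A]
    [IsAlgClosed A] {Ω : Type*} [Field Ω] [CharZero Ω] [IsAlgClosed Ω] (j : A →+* Ω)
    (σ : K →+* Ω) : ∃ τ : K →+* A, ∀ w, j (τ w) = σ w := by
  obtain ⟨τ, hτ⟩ := exists_factor (K := K) (j.toRatAlgHom) (σ.toRatAlgHom)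
  exact ⟨τ.toRingHom, hτ⟩

theorem exists_embedding' {K : Type} [Field K] [NumberField K] {A : Type*} [Field A] [Algebra ℚ A]
    [CharZero A] [Algebra.IsAlgebraic ℚ A] (p : ℕ) [Fact p.Prime] (σ : K →+* A)
    (x : K →+* PadicAlgCl p) : ∃ e : A →+* PadicAlgCl p, e.comp σ = x := by
  obtain ⟨e, he⟩ := exists_embedding (K := K) p (σ.toRatAlgHom) (x.toRatAlgHom)
  exact ⟨e.toRingHom, RingHom.ext he⟩

variable {I : Type} [Fintype I] {K : I → Type} [∀ i, Field (K i)] [∀ i, NumberField (K i)]
  [∀ i, IsCMField (K i)]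

/-- complex conjugation on the set of all embeddings -/
noncomputable def cj {A : Type} [Ring A] (j : Σ i, K i →+* A) : Σ i, K i →+* A := ⟨j.1, bar j.2⟩

omit [Fintype I] in
theorem cj_cj' {A : Type} [Ring A] (j : Σ i, K i →+* A) : cj (cj j) = j := by
  obtain ⟨i, σ⟩ := j
  change (⟨i, bar (bar σ)⟩ : Σ i, K i →+* A) = ⟨i, σ⟩
  rw [bar_bar]

omit [Fintype I] in
theorem cj_ne' {A : Type} [Ring A] [Nontrivial A] (j : Σ i, K i →+* A) : cj j ≠ j := by
  obtain ⟨i, σ⟩ := j
  intro h
  have h1 : (⟨i, bar σ⟩ : Σ i, K i →+* A) = ⟨i, σ⟩ := h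
  exact bar_ne σ (eq_of_heq (Sigma.mk.inj h1).2)

variable (p : ℕ) [Fact p.Prime] {A : Type} [Field A] [CharZero A]

/-- the deviations from the middle slope -/
noncomputable def Dv (a : ℕ) (π : ∀ i, K i) (e : A →+* PadicAlgCl p) (j : Σ i, K i →+* A) : ℝ :=
  ldev p a (e (j.2 (π j.1)))

variable {p}

omit [Fintype I] in
theorem weil_mul {a : ℕ} {π : ∀ i, K i} (hπ : WeilTuple p a π) (i : I) :
    π i * complexConj (K i) (π i) = (p : K i) ^ a := mul_conj_eq p (π i) a (hπ i).2

omit [Fintype I] in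
theorem weil_ne {a : ℕ} {π : ∀ i, K i} (hπ : WeilTuple p a π) (i : I) : π i ≠ 0 := by
  intro h0
  have h1 := weil_mul hπ i
  rw [h0, zero_mul] at h1
  exact pow_ne_zero _ (by exact_mod_cast (Fact.out : p.Prime).ne_zero) h1.symm

omit [Fintype I] in
theorem val_cj {a : ℕ} {π : ∀ i, K i} (hπ : WeilTuple p a π) (j : Σ i, K i →+* A) :
    j.2 (π j.1) * (cj j).2 (π (cj j).1) = (p : A) ^ a := by
  change j.2 (π j.1) * j.2 (complexConj (K j.1) (π j.1)) = _
  rw [← map_mul, weil_mul hπ, map_pow, map_natCast]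

omit [Fintype I] [CharZero A] in
theorem Dv_cj {a : ℕ} {π : ∀ i, K i} (hπ : WeilTuple p a π) (e : A →+* PadicAlgCl p)
    (j : Σ i, K i →+* A) : Dv p a π e (cj j) = - Dv p a π e j := by
  unfold Dv
  apply ldev_conj
  change e (j.2 (π j.1)) * e (j.2 (complexConj (K j.1) (π j.1))) = _
  rw [← map_mul, ← map_mul, weil_mul hπ, map_pow, map_natCast, map_pow, map_natCast]

/-- If there are no relations all Tate classes are generated in degree two. -/
theorem generated_of_norel [Algebra ℚ A] [IsAlgClosed A] [Algebra.IsAlgebraic ℚ A] {a : ℕ}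
    {π : ∀ i, K i} (hπ : WeilTuple p a π)
    (hno : NoRel (cj (K := K) (A := A)) (Dv p a π)) : Generated π (p ^ a) := by
  classical
  intro Ω V _ _ _ _ _ F hF m s hs x hx hFx
  have hp : p.Prime := Fact.out
  have hp0 : (p : Ω) ≠ 0 := by exact_mod_cast hp.ne_zero
  let j : A →+* Ω := (IsAlgClosed.lift : A →ₐ[ℚ] Ω).toRingHom
  -- no real eigenvalue
  have hne : ∀ k : Σ i, K i →+* A, k.2 (π k.1) ≠ (cj k).2 (π (cj k).1) := by
    intro k hk
    have h1 := hno (fun l => if l = k then 1 else if l = cj k then -1 else 0) (by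
      intro l
      have e1 : cj l = k ↔ l = cj k :=
        ⟨fun h => by rw [← h, cj_cj'], fun h => by rw [h, cj_cj']⟩
      have e2 : cj l = cj k ↔ l = k :=
        ⟨fun h => by rw [← cj_cj' l, h, cj_cj'], fun h => by rw [h]⟩
      have e3 : cj k ≠ k := cj_ne' k
      simp only [e1, e2]
      by_cases h2 : l = k
      · have h3 : l ≠ cj k := fun h => e3 (by rw [← h, h2])
        simp [h2, e3.symm]
      · by_cases h3 : l = cj k
        · simp [h3, e3]
        · simp [h2, h3]) (by
      intro e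
      have hzero : ∀ l, l = k ∨ l = cj k → Dv p a π e l = 0 := by
        have h2 : Dv p a π e (cj k) = Dv p a π e k := by
          unfold Dv
          rw [hk]
        have h3 := Dv_cj hπ e k
        rintro l (rfl | rfl)
        · linarith
        · linarith
      refine Finset.sum_eq_zero fun l _ => ?_
      by_cases h2 : l = k
      · rw [hzero l (Or.inl h2), mul_zero]
      · by_cases h3 : l = cj k
        · rw [hzero l (Or.inr h3), mul_zero]
        · simp [h2, h3])
    have h2 := congrFun h1 k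
    simp at h2
  have hcastA : ∀ k : Σ i, K i →+* A, (p : Ω) ^ a / j (k.2 (π k.1)) =
      j ((cj k).2 (π (cj k).1)) := by
    intro k
    have h1 : j (k.2 (π k.1)) ≠ 0 := (map_ne_zero _).2 ((map_ne_zero _).2 (weil_ne hπ _))
    rw [div_eq_iff h1, ← map_mul, mul_comm, val_cj hπ, map_pow, map_natCast]
  have hfac : ∀ (i : I) (σ : K i →+* Ω), ∃ k : Σ i, K i →+* A,
      j (k.2 (π k.1)) = σ (π i) := by
    intro i σ
    obtain ⟨τ, hτ⟩ := exists_factor' j σ
    exact ⟨⟨i, τ⟩, hτ _⟩
  have hFx' : ExteriorAlgebra.map (F ^ s) x = (((p : Ω) ^ a) ^ m) ^ s • x := by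
    rw [hFx]
    push_cast
    rfl
  have hgoal := mem_adjoin_of_balanced F ((p : Ω) ^ a)
    {μ : Ω | ∃ k : Σ i, K i →+* A, j (k.2 (π k.1)) = μ} ?_ ?_ m s ?_ x hx hFx'
  · have h1 : {y : ExteriorAlgebra Ω V | y ∈ ⋀[Ω]^2 V ∧
        ExteriorAlgebra.map F y = ((p ^ a : ℕ) : Ω) • y} = deg2 F ((p : Ω) ^ a) := by
      ext y
      simp only [deg2]
      push_cast
      rfl
    rw [h1]
    exact hgoal
  · rintro y ⟨k, rfl⟩
    refine ⟨(map_ne_zero _).2 ((map_ne_zero _).2 (weil_ne hπ _)), fun h => ?_⟩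
    rw [hcastA] at h
    exact hne k (j.injective h).symm
  · rw [← hF]
    congr 1
    ext v
    constructor
    · rintro ⟨μ, ⟨k, rfl⟩, h2⟩
      exact ⟨k.1, j.comp k.2, h2⟩
    · rintro ⟨i, σ, h2⟩
      obtain ⟨k, hk⟩ := hfac i σ
      exact ⟨σ (π i), ⟨k, hk⟩, h2⟩
  · intro L hlen hL hprod y hy
    obtain ⟨k₀, rfl⟩ := hy
    set z := j (k₀.2 (π k₀.1)) with hz
    have hz0 : z ≠ 0 := (map_ne_zero _).2 ((map_ne_zero _).2 (weil_ne hπ _))
    have hex : ∀ k : Fin L.length, ∃ l : Σ i, K i →+* A, j (l.2 (π l.1)) = L.get k :=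
      fun k => hL _ (L.get_mem k)
    choose σ hσ using hex
    have hLprod : L.prod = ∏ k, L.get k := by
      rw [← List.prod_ofFn, List.ofFn_get]
    have hrel : (∏ k, (σ k).2 (π (σ k).1)) ^ s = (((p : A) ^ a) ^ m) ^ s := by
      apply j.injective
      rw [map_pow, map_prod]
      simp only [hσ]
      rw [← hLprod, hprod]
      simp
    have hsum : ∀ e : A →+* PadicAlgCl p, ∑ k, Dv p a π e (σ k) = 0 := by
      intro e
      have h1 := congrArg (fun w => Real.log ‖e w‖) hrel
      simp only [map_pow, map_prod, norm_pow, norm_prod, Real.log_pow, map_natCast,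
        log_norm_p] at h1
      rw [Real.log_prod (fun k _ => norm_ne_zero_iff.2 ((map_ne_zero e).2 ((map_ne_zero _).2
        (weil_ne hπ _))))] at h1
      have hs' : (s : ℝ) ≠ 0 := by exact_mod_cast hs.ne'
      have h2 := mul_left_cancel₀ hs' h1
      unfold Dv ldev
      rw [Finset.sum_add_distrib, ← Finset.mul_sum, h2, Finset.sum_const, Finset.card_univ,
        Fintype.card_fin, hlen, nsmul_eq_mul]
      push_cast
      ring
    let N : (Σ i, K i →+* A) → ℝ := fun τ => ((Finset.univ.filter fun k => σ k = τ).card : ℝ)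
    have hsumN : ∀ e : A →+* PadicAlgCl p, ∑ τ, N τ * Dv p a π e τ = 0 := by
      intro e
      rw [← hsum e, ← Finset.sum_fiberwise Finset.univ σ]
      refine Finset.sum_congr rfl fun τ _ => ?_
      rw [Finset.sum_congr rfl (fun k hk => by rw [(Finset.mem_filter.1 hk).2]),
        Finset.sum_const, nsmul_eq_mul]
    have hbij : ∀ f : (Σ i, K i →+* A) → ℝ, ∑ τ, f (cj τ) = ∑ τ, f τ := by
      intro f
      refine Finset.sum_bij' (fun σ _ => cj σ) (fun σ _ => cj σ) ?_ ?_ ?_ ?_ ?_
      · intro _ _; exact Finset.mem_univ _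
      · intro _ _; exact Finset.mem_univ _
      · intro σ _; exact cj_cj' σ
      · intro σ _; exact cj_cj' σ
      · intro _ _; rfl
    have ha := hno (fun τ => N τ - N (cj τ)) (by
      intro τ
      rw [cj_cj']
      ring) (by
      intro e
      have h1 : ∑ τ, (N τ - N (cj τ)) * Dv p a π e τ =
          ∑ τ, N τ * Dv p a π e τ + ∑ τ, N (cj τ) * Dv p a π e (cj τ) := by
        rw [← Finset.sum_add_distrib]
        refine Finset.sum_congr rfl fun τ _ => ?_
        rw [Dv_cj hπ]
        ring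
      rw [h1, hsumN e, hbij (fun τ => N τ * Dv p a π e τ), hsumN e, add_zero])
    have hcount : ∀ w : Ω, (L.count w : ℝ) = ∑ τ : Σ i, K i →+* A,
        if j (τ.2 (π τ.1)) = w then N τ else 0 := by
      intro w
      have h1 : L.count w = (Finset.univ.filter fun k => L.get k = w).card := by
        have h2 : (L : Multiset Ω) = (Finset.univ : Finset (Fin L.length)).val.map L.get := by
          rw [Fin.univ_val_map, List.ofFn_get]
        rw [← Multiset.coe_count, h2, Multiset.count_map, ← Finset.filter_val, Finset.card_val]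
        congr 1
        ext k
        simp [eq_comm]
      have h3 : (Finset.univ.filter fun k => L.get k = w).card =
          ∑ τ : (Σ i, K i →+* A), (Finset.univ.filter fun k => L.get k = w ∧ σ k = τ).card := by
        rw [Finset.card_eq_sum_card_fiberwise (f := σ) (t := Finset.univ)
          (fun _ _ => Finset.mem_coe.2 (Finset.mem_univ _))]
        refine Finset.sum_congr rfl fun τ _ => ?_
        rw [Finset.filter_filter]
      rw [h1, h3]
      push_cast
      refine Finset.sum_congr rfl fun τ _ => ?_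
      split_ifs with h
      · simp only [N]
        congr 2
        ext k
        simp only [Finset.mem_filter, Finset.mem_univ, true_and]
        constructor
        · rintro ⟨_, h2⟩
          exact h2
        · intro h2
          refine ⟨?_, h2⟩
          rw [← hσ k, h2, h]
      · rw [Nat.cast_eq_zero, Finset.card_eq_zero, Finset.filter_eq_empty_iff]
        rintro k _ ⟨h2, h3⟩
        apply h
        rw [← h3, hσ k, h2]
    have hfinal : (L.count z : ℝ) = (L.count ((p : Ω) ^ a / z) : ℝ) := by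
      rw [hcount, hcount, ← hbij]
      refine Finset.sum_congr rfl fun τ _ => ?_
      have h1 : N (cj τ) = N τ := by
        have h5 : N τ - N (cj τ) = 0 := congrFun ha τ
        linarith
      rw [h1]
      congr 1
      rw [← hcastA]
      have h2 : j (τ.2 (π τ.1)) ≠ 0 := (map_ne_zero _).2 ((map_ne_zero _).2 (weil_ne hπ _))
      rw [eq_iff_iff]
      constructor
      · intro h
        rw [div_eq_iff h2] at h
        rw [eq_div_iff hz0, h]
        ring
      · intro h
        rw [eq_div_iff hz0] at h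
        rw [div_eq_iff h2, ← h]
        ring
    exact_mod_cast hfinal

/-- If there are no relations the conjugates are separated. -/
theorem separated_of_norel [Algebra ℚ A] [IsAlgClosed A] [Algebra.IsAlgebraic ℚ A] {a : ℕ}
    {π : ∀ i, K i} (hno : NoRel (cj (K := K) (A := A)) (Dv p a π)) (hπ : WeilTuple p a π) :
    Separated π := by
  classical
  intro n hn x x' hxx
  let ι : A →+* ℂ := (IsAlgClosed.lift : A →ₐ[ℚ] ℂ).toRingHom
  obtain ⟨τ, hτ⟩ := exists_factor' ι x.2
  obtain ⟨τ', hτ'⟩ := exists_factor' ι x'.2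
  set k : Σ i, K i →+* A := ⟨x.1, τ⟩ with hk
  set k' : Σ i, K i →+* A := ⟨x'.1, τ'⟩ with hk'
  have hpow : (k.2 (π k.1)) ^ n = (k'.2 (π k'.1)) ^ n := by
    apply ι.injective
    rw [map_pow, map_pow]
    change (ι (τ (π x.1))) ^ n = (ι (τ' (π x'.1))) ^ n
    rw [hτ, hτ']
    exact hxx
  have hDv : ∀ e : A →+* PadicAlgCl p, Dv p a π e k = Dv p a π e k' := by
    intro e
    have h1 := congrArg (fun w => Real.log ‖e w‖) hpow
    simp only [map_pow, norm_pow, Real.log_pow] at h1
    have hn' : (n : ℝ) ≠ 0 := by exact_mod_cast hn.ne'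
    have h2 := mul_left_cancel₀ hn' h1
    unfold Dv ldev
    rw [h2]
  have hkk : k = k' := by
    by_contra hne
    let δ : (Σ i, K i →+* A) → (Σ i, K i →+* A) → ℝ := fun l j => if j = l then 1 else 0
    have hδ : ∀ (l : Σ i, K i →+* A) (f : (Σ i, K i →+* A) → ℝ),
        ∑ j, δ l j * f j = f l := by
      intro l f
      simp [δ]
    have hδc : ∀ l j : Σ i, K i →+* A, δ l (cj j) = δ (cj l) j := by
      intro l j
      simp only [δ]
      congr 1
      rw [eq_iff_iff]
      exact ⟨fun h => by rw [← h, cj_cj'], fun h => by rw [h, cj_cj']⟩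
    have h1 := hno (fun j => δ k j - δ (cj k) j - (δ k' j - δ (cj k') j)) (by
      intro j
      rw [hδc, hδc, hδc, hδc, cj_cj', cj_cj']
      ring) (by
      intro e
      simp only [sub_mul, Finset.sum_sub_distrib, hδ]
      rw [Dv_cj hπ, Dv_cj hπ, hDv e]
      ring)
    have h2 := congrFun h1 k
    have h3 : k ≠ cj k := (cj_ne' k).symm
    simp only [δ, Pi.zero_apply] at h2
    rw [if_pos trivial, if_neg h3, if_neg hne] at h2
    split_ifs at h2 <;> norm_num at h2
  obtain ⟨i, σ⟩ := x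
  obtain ⟨i', σ'⟩ := x'
  have h1 : i = i' := congrArg Sigma.fst hkk
  subst h1
  have h2 : τ = τ' := eq_of_heq (Sigma.mk.inj hkk).2
  subst h2
  congr 1
  ext w
  exact (hτ w).symm.trans (hτ' w)

end Pool.Agent.Helper43x.ZO
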