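import Mathlib
import Pool.Agent.Helper43x.ZO.Tate

/-!
# Exotic Tate classes from relations
-/

set_option autoImplicit false

namespace Pool.Agent.Helper43x.ZO

open NumberField NumberField.IsCMField Pool.Agent.H485R3 Pool.Agent.H925R2
open Pool.Agent.H485R3.Exact (ldev ldev_conj norm_p_padic norm_eq_one_of_ne)

section ext

variable {κ : Type} [Fintype κ] [DecidableEq κ] (μ : κ → ℂ)

/-- the diagonal endomorphism -/
noncomputable def diagF : (κ → ℂ) →ₗ[ℂ] (κ → ℂ) := LinearMap.pi fun k => μ k • LinearMap.proj k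

theorem diagF_apply (v : κ → ℂ) (k : κ) : diagF μ v k = μ k * v k := rfl

theorem diagF_single (k : κ) : diagF μ (Pi.single k 1) = μ k • Pi.single k (1 : ℂ) := by
  funext l
  rw [diagF_apply, Pi.smul_apply, smul_eq_mul]
  by_cases h : l = k
  · rw [h]
  · rw [Pi.single_eq_of_ne h, mul_zero, mul_zero]

theorem diagF_pow_single (s : ℕ) (k : κ) :
    (diagF μ ^ s) (Pi.single k 1) = μ k ^ s • Pi.single k (1 : ℂ) := by
  induction s with
  | zero => simp
  | succ s ih => rw [pow_succ', Module.End.mul_apply, ih, map_smul, diagF_single, smul_smul, pow_succ]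

theorem span_single : Submodule.span ℂ (Set.range fun k : κ => (Pi.single k (1 : ℂ) : κ → ℂ)) = ⊤ := by
  rw [eq_top_iff]
  intro v _
  have h1 : v = ∑ k, v k • (Pi.single k (1 : ℂ) : κ → ℂ) := by
    funext l
    rw [Finset.sum_apply, Finset.sum_eq_single l]
    · simp
    · intro b _ hb
      simp [Pi.single_eq_of_ne (Ne.symm hb)]
    · intro h
      exact absurd (Finset.mem_univ _) h
  rw [h1]
  exact Submodule.sum_mem _ fun k _ => Submodule.smul_mem _ _ (Submodule.subset_span ⟨k, rfl⟩)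

/-- no classes of degree two -/
theorem deg2_eq_zero (q : ℂ) (hq : ∀ k l, μ k * μ l ≠ q) (y : ExteriorAlgebra ℂ (κ → ℂ))
    (hy : y ∈ ⋀[ℂ]^2 (κ → ℂ)) (hF : ExteriorAlgebra.map (diagF μ) y = q • y) : y = 0 := by
  classical
  have hsp := exteriorPower.ιMulti_span_fixedDegree_of_span_eq_top ℂ 2 (κ → ℂ) span_single
  set T : Set (ExteriorAlgebra ℂ (κ → ℂ)) :=
    {y | ∃ b : Fin 2 → κ, ExteriorAlgebra.ιMulti ℂ 2 (fun j => Pi.single (b j) (1 : ℂ)) = y} with hT
  have hyT : y ∈ Submodule.span ℂ T := by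
    rw [← hsp] at hy
    refine Submodule.span_mono ?_ hy
    rintro _ ⟨a, ha, rfl⟩
    have h1 : ∀ j, ∃ k : κ, (Pi.single k (1 : ℂ) : κ → ℂ) = a j := fun j => ha ⟨j, rfl⟩
    choose b hb using h1
    exact ⟨b, by rw [funext hb]⟩
  have hTe : ∀ b : Fin 2 → κ, ExteriorAlgebra.map (diagF μ)
      (ExteriorAlgebra.ιMulti ℂ 2 (fun j => (Pi.single (b j) (1 : ℂ) : κ → ℂ))) =
      (μ (b 0) * μ (b 1)) • ExteriorAlgebra.ιMulti ℂ 2 (fun j => Pi.single (b j) (1 : ℂ)) := by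
    intro b
    rw [ExteriorAlgebra.map_apply_ιMulti]
    have h1 : (⇑(diagF μ) ∘ fun j : Fin 2 => (Pi.single (b j) (1 : ℂ) : κ → ℂ)) =
        fun j => μ (b j) • (Pi.single (b j) (1 : ℂ) : κ → ℂ) := by
      funext j
      exact diagF_single μ (b j)
    rw [h1]
    have h2 := AlternatingMap.map_smul_univ (ExteriorAlgebra.ιMulti ℂ 2 (M := κ → ℂ))
      (fun j => μ (b j)) (fun j => (Pi.single (b j) (1 : ℂ) : κ → ℂ))
    rw [h2, Fin.prod_univ_two]
  have hmem := mem_span_eigen (ExteriorAlgebra.map (diagF μ)).toLinearMap T (by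
    rintro t ⟨b, rfl⟩
    exact ⟨_, hTe b⟩) q y hyT hF
  have hempty : {t ∈ T | (ExteriorAlgebra.map (diagF μ)).toLinearMap t = q • t} ⊆ {0} := by
    rintro t ⟨⟨b, rfl⟩, ht⟩
    rw [Set.mem_singleton_iff]
    by_contra h0
    have h1 : (μ (b 0) * μ (b 1)) • ExteriorAlgebra.ιMulti ℂ 2
        (fun j => (Pi.single (b j) (1 : ℂ) : κ → ℂ)) =
        q • ExteriorAlgebra.ιMulti ℂ 2 (fun j => Pi.single (b j) (1 : ℂ)) := by
      rw [← hTe b]
      exact ht
    exact hq _ _ (smul_left_injective ℂ h0 h1)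
  have h2 := Submodule.span_mono hempty hmem
  rw [Submodule.span_zero_singleton, Submodule.mem_bot] at h2
  exact h2

/-- a top class which is not generated in degree two -/
theorem exists_exotic (n : ℕ) (hn : 0 < n) (ε : Fin n ≃ κ) (q : ℂ) (hq : ∀ k l, μ k * μ l ≠ q) :
    ExteriorAlgebra.ιMulti ℂ n (fun j => (Pi.single (ε j) (1 : ℂ) : κ → ℂ)) ∉
      Algebra.adjoin ℂ {y : ExteriorAlgebra ℂ (κ → ℂ) | y ∈ ⋀[ℂ]^2 (κ → ℂ) ∧
        ExteriorAlgebra.map (diagF μ) y = q • y} := by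
  classical
  intro hmem
  set x := ExteriorAlgebra.ιMulti ℂ n (fun j => (Pi.single (ε j) (1 : ℂ) : κ → ℂ)) with hx
  have h1 : {y : ExteriorAlgebra ℂ (κ → ℂ) | y ∈ ⋀[ℂ]^2 (κ → ℂ) ∧
      ExteriorAlgebra.map (diagF μ) y = q • y} ⊆ {0} := by
    rintro y ⟨h2, h3⟩
    exact deg2_eq_zero μ q hq y h2 h3
  have h2 := Algebra.adjoin_mono h1 hmem
  rw [Algebra.adjoin_singleton_zero, Algebra.mem_bot] at h2
  obtain ⟨r, hr⟩ := h2
  have hinv : ExteriorAlgebra.algebraMapInv x = 0 := by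
    rw [hx, ExteriorAlgebra.ιMulti_apply, map_list_prod]
    apply List.prod_eq_zero
    rw [List.mem_map]
    refine ⟨ExteriorAlgebra.ι ℂ (Pi.single (ε ⟨0, hn⟩) (1 : ℂ)), ?_, ?_⟩
    · rw [List.mem_ofFn]
      exact ⟨⟨0, hn⟩, rfl⟩
    · simp [ExteriorAlgebra.algebraMapInv]
  have hr0 : r = 0 := by
    rw [← hinv, ← hr]
    exact (ExteriorAlgebra.algebraMap_leftInverse (κ → ℂ) r).symm
  have hx0 : x = 0 := by rw [← hr, hr0, map_zero]
  -- the determinant
  let D : (κ → ℂ) [⋀^Fin n]→ₗ[ℂ] ℂ :=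
    (Matrix.detRowAlternating (n := Fin n) (R := ℂ)).compLinearMap
      (LinearMap.funLeft ℂ ℂ ε)
  let Φ : ExteriorAlgebra ℂ (κ → ℂ) →ₗ[ℂ] ℂ := ExteriorAlgebra.liftAlternating
    (fun i => if h : i = n then h ▸ D else 0)
  have h3 : Φ x = D (fun j => (Pi.single (ε j) (1 : ℂ) : κ → ℂ)) := by
    rw [hx]
    have := ExteriorAlgebra.liftAlternating_apply_ιMulti
      (fun i => if h : i = n then h ▸ D else (0 : (κ → ℂ) [⋀^Fin i]→ₗ[ℂ] ℂ))
      (fun j : Fin n => (Pi.single (ε j) (1 : ℂ) : κ → ℂ))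
    refine this.trans ?_
    rw [dif_pos rfl]
  have h4 : D (fun j => (Pi.single (ε j) (1 : ℂ) : κ → ℂ)) = 1 := by
    change Matrix.det (fun j => LinearMap.funLeft ℂ ℂ ε (Pi.single (ε j) (1 : ℂ) : κ → ℂ)) = 1
    have h5 : (fun j => LinearMap.funLeft ℂ ℂ ε (Pi.single (ε j) (1 : ℂ) : κ → ℂ)) =
        (1 : Matrix (Fin n) (Fin n) ℂ) := by
      ext j l
      rw [LinearMap.funLeft_apply, Matrix.one_apply, Pi.single_apply]
      congr 1
      rw [eq_iff_iff]
      exact ⟨fun h => (ε.injective h).symm, fun h => by rw [h]⟩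
    rw [h5, Matrix.det_one]
  rw [hx0, map_zero, h4] at h3
  exact zero_ne_one h3

end ext

end Pool.Agent.Helper43x.ZO
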