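import Mathlib
import Pool.Agent.Helper43x.ZO.Exo

/-!
# If all Tate classes are generated in degree two there are no relations
-/

set_option autoImplicit false

namespace Pool.Agent.Helper43x.ZO

open NumberField NumberField.IsCMField Pool.Agent.H485R3 Pool.Agent.H925R2
open Pool.Agent.H485R3.Exact (ldev ldev_conj norm_p_padic norm_eq_one_of_ne)

theorem root_of_unity' {A : Type} [Field A] [Algebra ℚ A] [IsAlgClosed A]
    [Algebra.IsAlgebraic ℚ A] (ξ : A)
    (h1 : ∀ (l : ℕ) [Fact l.Prime] (e : A →+* PadicAlgCl l), ‖e ξ‖ ≤ 1)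
    (h2 : ∀ φ : A →+* ℂ, ‖φ ξ‖ = 1) : ∃ r : ℕ, 0 < r ∧ ξ ^ r = 1 := by
  have : IsAlgClosure ℚ A := ⟨inferInstance, inferInstance⟩
  have : Normal ℚ A := IsAlgClosure.normal ℚ A
  have hint : IsIntegral ℤ ξ := isIntegral_of_norm_le ξ fun l _ e => h1 l e.toRingHom
  have hfin : FiniteDimensional ℚ (IntermediateField.adjoin ℚ {ξ}) :=
    IntermediateField.adjoin.finiteDimensional (Algebra.IsIntegral.isIntegral ξ)
  let L := IntermediateField.adjoin ℚ {ξ}
  have halg : (L.algebra' : Algebra ℚ L) = DivisionRing.toRatAlgebra := Subsingleton.elim _ _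
  have hc0 : CharZero L := algebraRat.charZero L
  have hfin' : @Module.Finite ℚ L _ _ (@Algebra.toModule ℚ L _ _ DivisionRing.toRatAlgebra) := by
    rw [← halg]
    exact hfin
  have hnf : NumberField L := @NumberField.mk L _ hc0 hfin'
  let x : L := ⟨ξ, IntermediateField.mem_adjoin_simple_self ℚ ξ⟩
  let f : L →+* A := algebraMap L A
  have hx : IsIntegral ℤ x := by
    have h3 : IsIntegral ℤ (f x) := hint
    exact (isIntegral_algHom_iff f.toIntAlgHom f.injective).1 h3
  obtain ⟨r, hr, hxr⟩ := NumberField.Embeddings.pow_eq_one_of_norm_eq_one L ℂ hx (by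
    intro φ
    let _ : Algebra L ℂ := φ.toAlgebra
    have _ : Algebra.IsAlgebraic L A := Algebra.IsAlgebraic.tower_top (K := ℚ) L
    let e : A →ₐ[L] ℂ := IsAlgClosed.lift
    have h3 := h2 e.toRingHom
    have h4 : e.toRingHom ξ = φ x := e.commutes x
    rwa [h4] at h3)
  refine ⟨r, hr, ?_⟩
  have h3 := congrArg f hxr
  rw [map_pow, map_one] at h3
  exact h3

variable {I : Type} [Fintype I] {K : I → Type} [∀ i, Field (K i)] [∀ i, NumberField (K i)]
  [∀ i, IsCMField (K i)] {p : ℕ} [Fact p.Prime] {A : Type} [Field A] [CharZero A]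

theorem norel_of_generated [Algebra ℚ A] [IsAlgClosed A] [Algebra.IsAlgebraic ℚ A] {a : ℕ}
    {π : ∀ i, K i} (hπ : WeilTuple p a π) (hsep : Separated π) (hgen : Generated π (p ^ a)) :
    NoRel (cj (K := K) (A := A)) (Dv p a π) := by
  classical
  have hp : p.Prime := Fact.out
  have hp1 : 1 < (p : ℝ) := by exact_mod_cast hp.one_lt
  have hlog : 0 < Real.log p := Real.log_pos hp1
  let ι : A →+* ℂ := (IsAlgClosed.lift : A →ₐ[ℚ] ℂ).toRingHom
  -- rationality
  have hρ : ∀ (e : A →+* PadicAlgCl p) (j : Σ i, K i →+* A), ∃ r : ℚ,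
      Dv p a π e j = r * Real.log p := by
    intro e j
    obtain ⟨r, hr⟩ := exists_rat p (e.comp j.2) (π j.1) (weil_ne hπ _)
    refine ⟨2 * r + a, ?_⟩
    have h1 := hr _ rfl
    unfold Dv ldev
    change Real.log ‖e (j.2 (π j.1))‖ = _ at h1
    rw [h1]
    push_cast
    ring
  choose ρ hρ using hρ
  have hρc : ∀ e j, ρ e (cj j) = - ρ e j := by
    intro e j
    have h1 := Dv_cj hπ e j
    rw [hρ, hρ, ← neg_mul] at h1
    have h2 := mul_right_cancel₀ hlog.ne' h1
    exact_mod_cast h2
  have hfun : (fun e j => (ρ e j : ℝ) * Real.log p) = Dv p a π (K := K) (A := A) := by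
    funext e j
    rw [hρ]
  rw [← hfun]
  refine norel_cast cj cj_cj' cj_ne' hρc _ hlog.ne' (norel_of_int cj ?_)
  intro n hn hrel
  by_contra hn0
  have hinj : ∀ j j' : Σ i, K i →+* A, j.2 (π j.1) = j'.2 (π j'.1) → j = j' := by
    rintro ⟨i, τ⟩ ⟨i', τ'⟩ h
    have h1 : (⟨i, ι.comp τ⟩ : Σ i, K i →+* ℂ) = ⟨i', ι.comp τ'⟩ := by
      apply hsep 1 one_pos
      change (ι (τ (π i))) ^ 1 = (ι (τ' (π i'))) ^ 1
      have h2 : τ (π i) = τ' (π i') := h
      rw [h2]
    have h2 : i = i' := congrArg Sigma.fst h1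
    subst h2
    have h3 : ι.comp τ = ι.comp τ' := eq_of_heq (Sigma.mk.inj h1).2
    congr 1
    ext w
    apply ι.injective
    exact congrArg (fun f : K i →+* ℂ => f w) h3
  let np : (Σ i, K i →+* A) → ℕ := fun j => (n j).toNat
  have hnp : ∀ j, (n j : ℝ) = np j - np (cj j) := by
    intro j
    have h1 : (n j : ℤ) = (n j).toNat - (n (cj j)).toNat := by
      rw [hn j]
      omega
    have h2 := congrArg (Int.cast : ℤ → ℝ) h1
    push_cast at h2
    exact h2
  set m : ℕ := ∑ j, np j with hm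
  have hmpos : 0 < m := by
    obtain ⟨j, hj⟩ : ∃ j, n j ≠ 0 := by
      by_contra h
      push Not at h
      exact hn0 (funext h)
    have h1 : ∃ j, 0 < np j := by
      rcases lt_or_gt_of_ne hj with h | h
      · refine ⟨cj j, ?_⟩
        simp only [np]
        rw [hn j]
        omega
      · refine ⟨j, ?_⟩
        simp only [np]
        omega
    obtain ⟨j, hj⟩ := h1
    exact hj.trans_le (Finset.single_le_sum (f := np) (fun _ _ => Nat.zero_le _)
      (Finset.mem_univ j))
  let κ : Type := Σ j : (Σ i, K i →+* A), Fin (2 * np j)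
  have hcard : Fintype.card κ = 2 * m := by
    simp only [κ, Fintype.card_sigma, Fintype.card_fin, hm, Finset.mul_sum]
  let ε : Fin (2 * m) ≃ κ := (Fintype.equivFinOfCardEq hcard).symm
  let val : (Σ i, K i →+* A) → A := fun j => j.2 (π j.1)
  have hval0 : ∀ j, val j ≠ 0 := fun j => (map_ne_zero _).2 (weil_ne hπ _)
  let μ : κ → ℂ := fun k => ι (val k.1)
  have hq : ∀ k l : κ, μ k * μ l ≠ ((p ^ a : ℕ) : ℂ) := by
    intro k l h
    have h1 : ι (val k.1 * val l.1) = ι (val k.1 * val (cj k.1)) := by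
      rw [map_mul, val_cj hπ k.1, map_pow, map_natCast]
      change μ k * μ l = _
      rw [h]
      push_cast
      rfl
    have h2 := mul_left_cancel₀ (hval0 k.1) (ι.injective h1)
    have h3 : l.1 = cj k.1 := hinj _ _ h2
    have h4 : 0 < 2 * np k.1 := lt_of_le_of_lt (Nat.zero_le _) k.2.2
    have h5 : 0 < 2 * np l.1 := lt_of_le_of_lt (Nat.zero_le _) l.2.2
    rw [h3] at h5
    simp only [np] at h4 h5
    rw [hn] at h5
    omega
  -- the product
  let N : A := ∏ j, val j ^ (2 * np j)
  have hN0 : N ≠ 0 := Finset.prod_ne_zero_iff.2 fun j _ => pow_ne_zero _ (hval0 j)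
  have hNκ : ι N = ∏ k : κ, μ k := by
    have h1 : ∏ k : κ, μ k = ∏ j, ∏ _l : Fin (2 * np j), ι (val j) :=
      Fintype.prod_sigma (fun k : κ => μ k)
    have h2 : ι N = ∏ j, ι (val j) ^ (2 * np j) := by
      simp only [N, map_prod, map_pow]
    rw [h1, h2]
    refine Finset.prod_congr rfl fun j _ => ?_
    rw [Finset.prod_const, Finset.card_univ, Fintype.card_fin]
  have hsum : ∀ e : A →+* PadicAlgCl p, ∑ j, (np j : ℝ) * Dv p a π e j = 0 := by
    intro e
    have h1 : ∑ j, (n j : ℝ) * Dv p a π e j = 0 := by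
      have h2 := congrArg (fun q : ℚ => (q : ℝ) * Real.log p) (hrel e)
      simp only [Rat.cast_sum, Rat.cast_mul, Rat.cast_intCast, Rat.cast_zero, zero_mul,
        Finset.sum_mul] at h2
      rw [← h2]
      refine Finset.sum_congr rfl fun j _ => ?_
      rw [hρ]
      ring
    have h2 : ∑ j, (np (cj j) : ℝ) * Dv p a π e j = - ∑ j, (np j : ℝ) * Dv p a π e j := by
      rw [← Finset.sum_neg_distrib]
      refine Finset.sum_bij' (fun σ _ => cj σ) (fun σ _ => cj σ) ?_ ?_ ?_ ?_ ?_
      · intro _ _; exact Finset.mem_univ _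
      · intro _ _; exact Finset.mem_univ _
      · intro σ _; exact cj_cj' σ
      · intro σ _; exact cj_cj' σ
      · intro j _
        rw [Dv_cj hπ]
        ring
    simp only [hnp, sub_mul, Finset.sum_sub_distrib] at h1
    rw [h2] at h1
    linarith
  obtain ⟨s, hs, hξ⟩ : ∃ s : ℕ, 0 < s ∧ (N / ((p : A) ^ a) ^ m) ^ s = 1 := by
    apply root_of_unity'
    · intro l _ e
      rw [map_div₀, map_pow, map_pow, map_natCast, norm_div, norm_pow, norm_pow]
      by_cases hl : l = p
      · subst hl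
        have hNpos : 0 < ‖e N‖ := norm_pos_iff.2 ((map_ne_zero _).2 hN0)
        have h2 : Real.log ‖e N‖ = ∑ j, (2 * np j : ℝ) * Real.log ‖e (val j)‖ := by
          simp only [N, map_prod, norm_prod, map_pow, norm_pow]
          rw [Real.log_prod]
          · refine Finset.sum_congr rfl fun j _ => ?_
            rw [Real.log_pow]
            push_cast
            ring
          · intro j _
            exact pow_ne_zero _ (norm_ne_zero_iff.2 ((map_ne_zero _).2 (hval0 j)))
        have h3 := hsum e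
        have h4 : Real.log ‖e N‖ = - (m * (a * Real.log l)) := by
          have h5 : ∑ j, (np j : ℝ) * Dv l a π e j = ∑ j, (2 * np j : ℝ) * Real.log ‖e (val j)‖ +
              m * (a * Real.log l) := by
            rw [hm]
            push_cast
            rw [Finset.sum_mul, ← Finset.sum_add_distrib]
            refine Finset.sum_congr rfl fun j _ => ?_
            unfold Dv ldev
            ring
          rw [h2]
          linarith
        have h5 : Real.log (‖e N‖ / (‖(l : PadicAlgCl l)‖ ^ a) ^ m) = 0 := by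
          rw [norm_p_padic, Real.log_div hNpos.ne' (by positivity), Real.log_pow, Real.log_pow,
            Real.log_inv, h4]
          ring
        have h6 : 0 < ‖e N‖ / (‖(l : PadicAlgCl l)‖ ^ a) ^ m := by
          rw [norm_p_padic]
          positivity
        exact (Real.eq_one_of_pos_of_log_eq_zero h6 h5).le
      · have h1 : ‖e N‖ = 1 := by
          simp only [N, map_prod, norm_prod, map_pow, norm_pow]
          refine Finset.prod_eq_one fun j _ => ?_
          have h2 := norm_eq_one_of_ne p a (π j.1) (hπ _).1 (hπ _).2 l hl (e.comp j.2)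
          change ‖e (val j)‖ = 1 at h2
          rw [h2, one_pow]
        have h4 : (p : PadicAlgCl l) = algebraMap ℚ_[l] (PadicAlgCl l) (p : ℚ_[l]) := by simp
        have h5 : ‖(p : ℚ_[l])‖ = 1 := by
          rw [Padic.norm_natCast_eq_one_iff]
          exact (Nat.coprime_primes (Fact.out : l.Prime) (Fact.out : p.Prime)).2 hl
        rw [h1, h4, PadicAlgCl.norm_extends, h5, one_pow, one_pow, div_one]
    · intro φ
      rw [map_div₀, map_pow, map_pow, map_natCast, norm_div, norm_pow, norm_pow,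
        Complex.norm_natCast]
      have h1 : ‖φ N‖ = ((p : ℝ) ^ a) ^ m := by
        simp only [N, map_prod, norm_prod, map_pow, norm_pow]
        rw [hm, ← Finset.prod_pow_eq_pow_sum]
        refine Finset.prod_congr rfl fun j _ => ?_
        rw [pow_mul]
        congr 1
        exact (hπ j.1).2 (φ.comp j.2)
      rw [h1, div_self]
      positivity
  have hNs : (ι N) ^ s = (((p ^ a : ℕ) : ℂ) ^ m) ^ s := by
    have h1 := congrArg ι hξ
    rw [map_pow, map_div₀, map_pow, map_pow, map_natCast, map_one, div_pow] at h1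
    have h2 : (((p : ℂ) ^ a) ^ m) ^ s ≠ 0 := by
      have : (p : ℂ) ≠ 0 := by exact_mod_cast hp.ne_zero
      positivity
    rw [(div_eq_one_iff_eq h2).1 h1]
    push_cast
    rfl
  -- the class
  refine exists_exotic μ (2 * m) (by omega) ε ((p ^ a : ℕ) : ℂ) hq ?_
  refine hgen (diagF μ) ?_ m s hs _ ?_ ?_
  · rw [eq_top_iff, ← span_single]
    apply Submodule.span_mono
    rintro _ ⟨k, rfl⟩
    exact ⟨k.1.1, ι.comp k.1.2, diagF_single μ k⟩
  · exact (exteriorPower.ιMulti ℂ (2 * m) (fun j => (Pi.single (ε j) (1 : ℂ) : κ → ℂ))).2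
  · rw [ExteriorAlgebra.map_apply_ιMulti]
    have h1 : (⇑(diagF μ ^ s) ∘ fun j : Fin (2 * m) => (Pi.single (ε j) (1 : ℂ) : κ → ℂ)) =
        fun j => μ (ε j) ^ s • (Pi.single (ε j) (1 : ℂ) : κ → ℂ) := by
      funext j
      exact diagF_pow_single μ s (ε j)
    rw [h1]
    have h2 := AlternatingMap.map_smul_univ (ExteriorAlgebra.ιMulti ℂ (2 * m) (M := κ → ℂ))
      (fun j => μ (ε j) ^ s) (fun j => (Pi.single (ε j) (1 : ℂ) : κ → ℂ))
    rw [h2]
    congr 1
    rw [← hNs, hNκ, Finset.prod_pow, Equiv.prod_comp ε μ]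

end Pool.Agent.Helper43x.ZO
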