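import Mathlib
import Pool.Agent.Helper43x.ZO.Conv
import Pool.Agent.H485R3.Density.Main

/-!
# Boxes of Weil numbers
-/

set_option autoImplicit false

namespace Pool.Agent.Helper43x.ZO

open NumberField NumberField.IsCMField Pool.Agent.H485R3 Pool.Agent.H925R2
open Pool.Agent.H485R3.Exact (ldev ldev_conj norm_p_padic norm_eq_one_of_ne)

section one

variable {K : Type} [Field K] [NumberField K] [IsCMField K] (p : ℕ) [Fact p.Prime]

theorem HP.cases (D : (K →+* PadicAlgCl p) → ℝ) (hD : ∀ y, D (bar y) = - D y)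
    (hD' : ∀ y y', primeOf p y = primeOf p y' → D y = D y') (y : K →+* PadicAlgCl p) :
    D y = 0 ∨ ∃ s : HP p K, D y = D (HP.emb p s) ∨ D y = - D (HP.emb p s) := by
  rcases trichotomous_of WellOrderingRel (primeOf p y) (barI (primeOf p y)) with h | h | h
  · right
    let s₀ : HP p K := ⟨primeOf p y, ⟨y, rfl⟩, h⟩
    exact ⟨s₀, Or.inl (hD' _ _ (HP.primeOf_emb p s₀).symm)⟩
  · left
    have h0 : primeOf p (bar y) = primeOf p y := by rw [primeOf_bar, ← h]
    have h2 := hD y
    rw [hD' _ _ h0] at h2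
    linarith
  · right
    have h1 : WellOrderingRel (primeOf p (bar y)) (barI (primeOf p (bar y))) := by
      rwa [primeOf_bar, barI_barI]
    let s₀ : HP p K := ⟨primeOf p (bar y), ⟨bar y, rfl⟩, h1⟩
    refine ⟨s₀, Or.inr ?_⟩
    rw [hD' _ _ (HP.primeOf_emb p s₀), hD, neg_neg]

/-- the unit of a place -/
noncomputable def HP.eta (s : HP p K) : K := (HP.exists_eta p s).choose

/-- its size -/
noncomputable def HP.rad (s : HP p K) : ℝ := (HP.exists_eta p s).choose_spec.choose

theorem HP.eta_spec (s : HP p K) : HP.eta p s ≠ 0 ∧ 0 < HP.rad p s ∧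
    HP.rad p s ≤ classNumber K * Real.log p ∧ (∀ φ : K →+* ℂ, ‖φ (HP.eta p s)‖ = 1) ∧
    (∀ (l : ℕ) [Fact l.Prime], l ≠ p → ∀ y : K →+* PadicAlgCl l, ‖y (HP.eta p s)‖ = 1) ∧
    ∀ y : K →+* PadicAlgCl p, Real.log ‖y (HP.eta p s)‖ = - HP.rad p s * HP.sg p s y :=
  (HP.exists_eta p s).choose_spec.choose_spec

end one

theorem card_Icc_ge (x y : ℝ) (k : ℕ) (h : (k : ℝ) ≤ y - x) :
    k ≤ (Finset.Icc ⌈x⌉ ⌊y⌋).card := by
  rw [Int.card_Icc]
  have h1 := Int.lt_floor_add_one y
  have h2 := Int.ceil_lt_add_one x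
  have h3 : ((k : ℤ) : ℝ) < ((⌊y⌋ + 1 - ⌈x⌉ + 1 : ℤ) : ℝ) := by
    push_cast
    linarith
  have h4 : (k : ℤ) < ⌊y⌋ + 1 - ⌈x⌉ + 1 := by exact_mod_cast h3
  omega

theorem count_classes {T : Type} (all : Finset T) (bad : T → Prop) (R : Setoid T) (k N : ℕ)
    [DecidableEq T] [DecidablePred bad] [∀ x, DecidablePred fun y => R x y]
    (h : ∀ x ∈ all, (all.filter fun y => R x y ∧ bad y).card * k ≤
      (all.filter fun y => R x y).card * N) :
    (all.filter bad).card * k ≤ all.card * N := by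
  classical
  let f : T → Quotient R := fun x => Quotient.mk R x
  have h1 : (all.filter bad).card = ∑ b ∈ all.image f, ((all.filter bad).filter fun a => f a = b).card :=
    Finset.card_eq_sum_card_fiberwise fun x hx =>
      Finset.mem_coe.2 (Finset.mem_image_of_mem f (Finset.mem_filter.1 hx).1)
  have h2 : all.card = ∑ b ∈ all.image f, (all.filter fun a => f a = b).card :=
    Finset.card_eq_sum_card_fiberwise fun x hx =>
      Finset.mem_coe.2 (Finset.mem_image_of_mem f hx)
  rw [h1, h2, Finset.sum_mul, Finset.sum_mul]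
  refine Finset.sum_le_sum fun b hb => ?_
  obtain ⟨x, hx, rfl⟩ := Finset.mem_image.1 hb
  have h3 := h x hx
  have e1 : ((all.filter bad).filter fun a => f a = f x) =
      all.filter fun y => R x y ∧ bad y := by
    ext y
    simp only [Finset.mem_filter, f]
    rw [Quotient.eq]
    constructor
    · rintro ⟨⟨h1, h2⟩, h3⟩
      exact ⟨h1, R.symm h3, h2⟩
    · rintro ⟨h1, h2, h3⟩
      exact ⟨⟨h1, h3⟩, R.symm h2⟩
  have e2 : (all.filter fun a => f a = f x) = all.filter fun y => R x y := by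
    ext y
    simp only [Finset.mem_filter, f]
    rw [Quotient.eq]
    constructor
    · rintro ⟨h1, h2⟩
      exact ⟨h1, R.symm h2⟩
    · rintro ⟨h1, h2⟩
      exact ⟨h1, R.symm h2⟩
  rw [e1, e2]
  exact h3

variable {I : Type} [Fintype I] {K : I → Type} [∀ i, Field (K i)] [∀ i, NumberField (K i)]
  [∀ i, IsCMField (K i)] (p : ℕ) [Fact p.Prime] {A : Type} [Field A] [CharZero A]

/-- the index set of the coordinates -/
abbrev Ix (K : I → Type) [∀ i, Field (K i)] [∀ i, NumberField (K i)] [∀ i, IsCMField (K i)] :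
    Type := Σ i, HP p (K i)

open Classical in
/-- the sign matrix -/
noncomputable def SG (e : A →+* PadicAlgCl p) (j : Σ i, K i →+* A) (s : Ix p K) : ℤ :=
  if h : s.1 = j.1 then HP.sg p (h ▸ s.2) (e.comp j.2) else 0

omit [CharZero A] in
theorem sum_SG (f : Ix p K → ℝ) (e : A →+* PadicAlgCl p) (j : Σ i, K i →+* A) :
    ∑ s, f s * SG p e j s = ∑ t : HP p (K j.1), f ⟨j.1, t⟩ * HP.sg p t (e.comp j.2) := by
  classical
  rw [Fintype.sum_sigma, Finset.sum_eq_single j.1]
  · refine Finset.sum_congr rfl fun t _ => ?_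
    unfold SG
    rw [dif_pos rfl]
  · intro i _ hi
    refine Finset.sum_eq_zero fun t _ => ?_
    unfold SG
    rw [dif_neg hi]
    simp
  · intro h
    exact absurd (Finset.mem_univ _) h

/-- coordinates -/
noncomputable def crd (a : ℕ) (π : ∀ i, K i) (s : Ix p K) : ℝ :=
  ldev p a (HP.emb p s.2 (π s.1))

/-- the sizes -/
noncomputable def rd (s : Ix p K) : ℝ := 2 * HP.rad p s.2

/-- the action -/
noncomputable def act (m : Ix p K → ℤ) (π : ∀ i, K i) : ∀ i, K i :=
  fun i => π i * ∏ s : HP p (K i), HP.eta p s ^ m ⟨i, s⟩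

variable {p}

omit [Fintype I] in
theorem act_zero (π : ∀ i, K i) : act p 0 π = π := by
  funext i
  simp [act]

omit [Fintype I] in
theorem act_add (m m' : Ix p K → ℤ) (π : ∀ i, K i) : act p (m + m') π = act p m (act p m' π) := by
  funext i
  unfold act
  rw [mul_assoc, ← Finset.prod_mul_distrib]
  congr 1
  refine Finset.prod_congr rfl fun s _ => ?_
  rw [Pi.add_apply, zpow_add₀ (HP.eta_spec p s).1, mul_comm]

omit [Fintype I] in
theorem act_ne (m : Ix p K → ℤ) {π : ∀ i, K i} (i : I) (h : π i ≠ 0) : act p m π i ≠ 0 :=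
  mul_ne_zero h (Finset.prod_ne_zero_iff.2 fun s _ => zpow_ne_zero _ (HP.eta_spec p s).1)

omit [Fintype I] in
theorem norm_act (m : Ix p K → ℤ) (π : ∀ i, K i) (i : I) (φ : K i →+* ℂ) :
    ‖φ (act p m π i)‖ = ‖φ (π i)‖ := by
  unfold act
  rw [map_mul, map_prod, norm_mul, norm_prod]
  rw [Finset.prod_eq_one, mul_one]
  intro s _
  rw [map_zpow₀, norm_zpow, (HP.eta_spec p s).2.2.2.1 φ, one_zpow]

omit [Fintype I] in
theorem ldev_act (a : ℕ) (m : Ix p K → ℤ) (π : ∀ i, K i) (i : I) (h : π i ≠ 0)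
    (y : K i →+* PadicAlgCl p) :
    ldev p a (y (act p m π i)) = ldev p a (y (π i)) -
      ∑ s : HP p (K i), (rd p ⟨i, s⟩ * m ⟨i, s⟩) * HP.sg p s y := by
  have h1 : Real.log ‖y (act p m π i)‖ = Real.log ‖y (π i)‖ -
      ∑ s : HP p (K i), (HP.rad p s * m ⟨i, s⟩) * HP.sg p s y := by
    unfold act
    rw [map_mul, map_prod, norm_mul, norm_prod, Real.log_mul, Real.log_prod, sub_eq_add_neg,
      ← Finset.sum_neg_distrib]
    · congr 1
      refine Finset.sum_congr rfl fun s _ => ?_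
      rw [map_zpow₀, norm_zpow, Real.log_zpow, (HP.eta_spec p s).2.2.2.2.2 y]
      ring
    · intro s _
      exact norm_ne_zero_iff.2 ((map_ne_zero _).2 (zpow_ne_zero _ (HP.eta_spec p s).1))
    · exact norm_ne_zero_iff.2 ((map_ne_zero _).2 h)
    · exact Finset.prod_ne_zero_iff.2 fun s _ =>
        norm_ne_zero_iff.2 ((map_ne_zero _).2 (zpow_ne_zero _ (HP.eta_spec p s).1))
  unfold ldev rd
  rw [h1, mul_sub, Finset.mul_sum]
  have h2 : ∑ s : HP p (K i), 2 * ((HP.rad p s * m ⟨i, s⟩) * HP.sg p s y : ℝ) =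
      ∑ s : HP p (K i), (2 * HP.rad p s * m ⟨i, s⟩) * HP.sg p s y :=
    Finset.sum_congr rfl fun s _ => by ring
  rw [h2]
  ring

omit [Fintype I] in
theorem crd_act (a : ℕ) (m : Ix p K → ℤ) {π : ∀ i, K i} (h : ∀ i, π i ≠ 0) (s : Ix p K) :
    crd p a (act p m π) s = crd p a π s - rd p s * m s := by
  unfold crd
  rw [ldev_act a m π s.1 (h _), Finset.sum_eq_single s.2]
  · rw [HP.sg_emb, if_pos rfl]
    simp
  · intro t _ ht
    rw [HP.sg_emb, if_neg ht]
    simp
  · intro h
    exact absurd (Finset.mem_univ _) h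

omit [Fintype I] in
theorem ldev_odd {a : ℕ} {π : ∀ i, K i} (hπ : WeilTuple p a π) (i : I)
    (y : K i →+* PadicAlgCl p) : ldev p a (bar y (π i)) = - ldev p a (y (π i)) := by
  apply ldev_conj
  rw [bar_apply, ← map_mul, weil_mul hπ, map_pow, map_natCast]

omit [Fintype I] in
theorem ldev_place (a : ℕ) (π : ∀ i, K i) (i : I) (y y' : K i →+* PadicAlgCl p)
    (h : primeOf p y = primeOf p y') : ldev p a (y (π i)) = ldev p a (y' (π i)) := by
  unfold ldev
  rw [norm_eq_of_primeOf_eq p y y' h]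

theorem Dv_eq_sum {a : ℕ} {π : ∀ i, K i} (hπ : WeilTuple p a π) (e : A →+* PadicAlgCl p)
    (j : Σ i, K i →+* A) : Dv p a π e j = ∑ s, crd p a π s * SG p e j s := by
  rw [sum_SG]
  exact HP.sum_sg p (fun y => ldev p a (y (π j.1))) (ldev_odd hπ j.1)
    (ldev_place a π j.1) (e.comp j.2)

theorem crd_le {a : ℕ} {π : ∀ i, K i} (hπ : WeilTuple p a π) (s : Ix p K) :
    |crd p a π s| ≤ a * Real.log p := by
  have h1 : ∀ y : K s.1 →+* PadicAlgCl p, ldev p a (y (π s.1)) ≤ a * Real.log p := by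
    intro y
    have h2 : ‖y (π s.1)‖ ≤ 1 := norm_le_one_of_isIntegral p _ ((hπ s.1).1.map y.toIntAlgHom)
    have h3 := Real.log_nonpos (norm_nonneg _) h2
    unfold ldev
    linarith
  rw [abs_le]
  have h2 := h1 (HP.emb p s.2)
  have h3 := h1 (bar (HP.emb p s.2))
  rw [ldev_odd hπ] at h3
  exact ⟨by unfold crd; linarith, h2⟩

theorem weil_act_iff {a : ℕ} {π : ∀ i, K i} (hπ : WeilTuple p a π) (m : Ix p K → ℤ) :
    WeilTuple p a (act p m π) ↔ ∀ s, |crd p a π s - rd p s * m s| ≤ a * Real.log p := by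
  constructor
  · intro h s
    rw [← crd_act a m (weil_ne hπ)]
    exact crd_le h s
  · intro h i
    refine ⟨?_, fun φ => by rw [norm_act]; exact (hπ i).2 φ⟩
    apply isIntegral_of_norms
    intro l _ y
    by_cases hl : l = p
    · subst hl
      have hne : act l m π i ≠ 0 := act_ne m i (weil_ne hπ i)
      have hbar : ∀ y : K i →+* PadicAlgCl l, ldev l a (bar y (act l m π i)) =
          - ldev l a (y (act l m π i)) := by
        intro y
        rw [ldev_act a m π i (weil_ne hπ i), ldev_act a m π i (weil_ne hπ i), ldev_odd hπ,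
          neg_sub, sub_eq_add_neg, ← Finset.sum_neg_distrib]
        have h2 : ∀ s : HP l (K i), -((rd l ⟨i, s⟩ * m ⟨i, s⟩) * (HP.sg l s (bar y) : ℝ)) =
            (rd l ⟨i, s⟩ * m ⟨i, s⟩) * HP.sg l s y := by
          intro s
          rw [HP.sg_bar]
          push_cast
          ring
        rw [Finset.sum_congr rfl fun s _ => h2 s]
        ring
      have hbd : ∀ s : HP l (K i), |ldev l a (HP.emb l s (act l m π i))| ≤ a * Real.log l := by
        intro s
        have h1 := h ⟨i, s⟩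
        rw [← crd_act a m (weil_ne hπ)] at h1
        exact h1
      have h1 : ldev l a (y (act l m π i)) ≤ a * Real.log l := by
        rcases HP.cases l (fun y => ldev l a (y (act l m π i))) hbar
          (ldev_place a (act l m π) i) y with h2 | ⟨s, h2 | h2⟩
        · beta_reduce at h2
          rw [h2]
          have hp1 : 1 ≤ (l : ℝ) := by exact_mod_cast (Fact.out : l.Prime).one_lt.le
          have := Real.log_nonneg hp1
          positivity
        · beta_reduce at h2
          rw [h2]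
          exact (abs_le.1 (hbd s)).2
        · beta_reduce at h2
          rw [h2]
          have := (abs_le.1 (hbd s)).1
          linarith
      unfold ldev at h1
      have h2 : Real.log ‖y (act l m π i)‖ ≤ 0 := by linarith
      have h3 : 0 < ‖y (act l m π i)‖ := norm_pos_iff.2 ((map_ne_zero _).2 hne)
      exact (Real.log_nonpos_iff h3.le).1 h2
    · have h1 : ‖y (act p m π i)‖ = ‖y (π i)‖ := by
        unfold act
        rw [map_mul, map_prod, norm_mul, norm_prod, Finset.prod_eq_one, mul_one]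
        intro s _
        rw [map_zpow₀, norm_zpow, (HP.eta_spec p s).2.2.2.2.1 l hl y, one_zpow]
      rw [h1]
      exact norm_le_one_of_isIntegral l _ ((hπ i).1.map y.toIntAlgHom)

theorem rd_pos (s : Ix p K) : 0 < rd p s := mul_pos two_pos (HP.eta_spec p s.2).2.1

theorem weil_act_iff' {a : ℕ} {π : ∀ i, K i} (hπ : WeilTuple p a π) (m : Ix p K → ℤ) :
    WeilTuple p a (act p m π) ↔ ∀ s, m s ∈ Finset.Icc
      ⌈(crd p a π s - a * Real.log p) / rd p s⌉ ⌊(crd p a π s + a * Real.log p) / rd p s⌋ := by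
  rw [weil_act_iff hπ]
  refine forall_congr' fun s => ?_
  have h0 := rd_pos s
  rw [Finset.mem_Icc, Int.ceil_le, Int.le_floor, div_le_iff₀ h0, le_div_iff₀ h0, abs_le]
  constructor
  · rintro ⟨h1, h2⟩
    constructor <;> linarith
  · rintro ⟨h1, h2⟩
    constructor <;> linarith

theorem act_inj {π : ∀ i, K i} (h : ∀ i, π i ≠ 0) (m m' : Ix p K → ℤ)
    (hm : act p m π = act p m' π) : m = m' := by
  funext s
  have h1 := crd_act 0 m h s
  have h2 := crd_act 0 m' h s
  rw [hm, h2] at h1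
  have h3 := (rd_pos s).ne'
  have h4 : rd p s * (m' s : ℝ) = rd p s * (m s : ℝ) := by linarith
  have h5 := mul_left_cancel₀ h3 h4
  exact_mod_cast h5.symm

theorem minor_eq {a : ℕ} {π : ∀ i, K i} (hπ : WeilTuple p a π)
    (f : Half (cj (K := K) (A := A)) → (A →+* PadicAlgCl p)) :
    (minor cj (Dv p a π) f).det = detFun (fun h h' s => SG p (f h) h'.1 s) (crd p a π) := by
  unfold minor detFun
  congr 1
  ext h h'
  rw [Matrix.of_apply, Matrix.of_apply, Dv_eq_sum hπ]

end Pool.Agent.Helper43x.ZO
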