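import Mathlib
import Pool.Agent.Helper43x.ZO.Count

/-!
# The zero-one law for exotic Tate classes
-/

set_option autoImplicit false

namespace Pool.Agent.Helper43x.ZO

open NumberField NumberField.IsCMField Pool.Agent.H485R3 Pool.Agent.H925R2
open Pool.Agent.H485R3.Exact (ldev ldev_conj norm_p_padic norm_eq_one_of_ne)

variable {I : Type} [Fintype I] {K : I → Type} [∀ i, Field (K i)] [∀ i, NumberField (K i)]
  [∀ i, IsCMField (K i)] (p : ℕ) [Fact p.Prime] {A : Type} [Field A] [CharZero A]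

/-- the orbit relation -/
def orb (p : ℕ) [Fact p.Prime] (K : I → Type) [∀ i, Field (K i)] [∀ i, NumberField (K i)]
    [∀ i, IsCMField (K i)] : Setoid (∀ i, K i) where
  r π π' := ∃ m : Ix p K → ℤ, π' = act p m π
  iseqv := by
    refine ⟨fun π => ⟨0, (act_zero π).symm⟩, ?_, ?_⟩
    · rintro π π' ⟨m, rfl⟩
      refine ⟨-m, ?_⟩
      rw [← act_add, neg_add_cancel, act_zero]
    · rintro π π' π'' ⟨m, rfl⟩ ⟨m', rfl⟩
      exact ⟨m' + m, (act_add _ _ _).symm⟩

omit [Fintype I] in
theorem orb_iff (π π' : ∀ i, K i) : (orb p K) π π' ↔ ∃ m : Ix p K → ℤ, π' = act p m π := Iff.rfl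

theorem weil_finite_tuple (a : ℕ) : {π : ∀ i, K i | WeilTuple p a π}.Finite :=
  Set.Finite.pi' fun i => Density.weil_finite p (K i) a

/-- `T` for a choice of places -/
noncomputable def TT (f : Half (cj (K := K) (A := A)) → (A →+* PadicAlgCl p)) :
    Half (cj (K := K) (A := A)) → Half (cj (K := K) (A := A)) → Ix p K → ℤ :=
  fun h h' s => SG p (f h) h'.1 s

variable {p}

theorem norel_of_detFun {a : ℕ} {π : ∀ i, K i} (hπ : WeilTuple p a π)
    (f : Half (cj (K := K) (A := A)) → (A →+* PadicAlgCl p))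
    (h : detFun (TT p f) (crd p a π) ≠ 0) : NoRel (cj (K := K) (A := A)) (Dv p a π) := by
  refine norel_of_det cj cj_cj' cj_ne' (Dv_cj hπ) f ?_
  rw [minor_eq hπ f]
  exact h

theorem good_of_detFun [Algebra ℚ A] [IsAlgClosed A] [Algebra.IsAlgebraic ℚ A] {a : ℕ}
    {π : ∀ i, K i} (hπ : WeilTuple p a π)
    (f : Half (cj (K := K) (A := A)) → (A →+* PadicAlgCl p))
    (h : detFun (TT p f) (crd p a π) ≠ 0) : Separated π ∧ Generated π (p ^ a) :=
  ⟨separated_of_norel (norel_of_detFun hπ f h) hπ,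
    generated_of_norel hπ (norel_of_detFun hπ f h)⟩

theorem detFun_of_good [Algebra ℚ A] [IsAlgClosed A] [Algebra.IsAlgebraic ℚ A] {a : ℕ}
    {π : ∀ i, K i} (hπ : WeilTuple p a π) (hsep : Separated π) (hgen : Generated π (p ^ a)) :
    ∃ f : Half (cj (K := K) (A := A)) → (A →+* PadicAlgCl p),
      detFun (TT p f) (crd p a π) ≠ 0 := by
  obtain ⟨f, hf⟩ := det_of_norel cj cj_cj' cj_ne' (Dv_cj hπ)
    (norel_of_generated (A := A) hπ hsep hgen)
  rw [minor_eq hπ f] at hf
  exact ⟨f, hf⟩

/-- few bad tuples -/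
theorem count_main [Algebra ℚ A] [IsAlgClosed A] [Algebra.IsAlgebraic ℚ A]
    (f : Half (cj (K := K) (A := A)) → (A →+* PadicAlgCl p)) (t : Ix p K → ℝ)
    (ht : detFun (TT p f) t ≠ 0) (a h : ℕ) (hh : ∀ i, classNumber (K i) ≤ h) :
    {π : ∀ i, K i | WeilTuple p a π ∧ ¬ (Separated π ∧ Generated π (p ^ a))}.ncard * (a / h) ≤
      {π : ∀ i, K i | WeilTuple p a π}.ncard * Fintype.card (Half (cj (K := K) (A := A))) := by
  classical
  have hp : p.Prime := Fact.out
  have hlog : 0 < Real.log p := Real.log_pos (by exact_mod_cast hp.one_lt)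
  have hfin := weil_finite_tuple (K := K) p a
  have hfin' : {π : ∀ i, K i | WeilTuple p a π ∧
      ¬ (Separated π ∧ Generated π (p ^ a))}.Finite := hfin.subset fun π hπ => hπ.1
  have e1 : {π : ∀ i, K i | WeilTuple p a π}.ncard = hfin.toFinset.card :=
    Set.ncard_eq_toFinset_card _ hfin
  have e2 : {π : ∀ i, K i | WeilTuple p a π ∧ ¬ (Separated π ∧ Generated π (p ^ a))}.ncard =
      (hfin.toFinset.filter fun π => ¬ (Separated π ∧ Generated π (p ^ a))).card := by
    rw [Set.ncard_eq_toFinset_card _ hfin']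
    congr 1
    ext π
    simp only [Set.Finite.mem_toFinset, Set.mem_setOf_eq, Finset.mem_filter]
  rw [e1, e2]
  refine count_classes hfin.toFinset (fun π => ¬ (Separated π ∧ Generated π (p ^ a)))
    (orb p K) (a / h) _ ?_
  intro π hπ
  have hπ' : WeilTuple p a π := (Set.Finite.mem_toFinset hfin).1 hπ
  let G : Ix p K → Finset ℤ := fun s => Finset.Icc
      ⌈(crd p a π s - a * Real.log p) / rd p s⌉ ⌊(crd p a π s + a * Real.log p) / rd p s⌋
  have hG : ∀ s, a / h ≤ (G s).card := by
    intro s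
    apply card_Icc_ge
    have h0 := rd_pos s
    rw [← sub_div, le_div_iff₀ h0]
    have h1 : rd p s ≤ 2 * (h * Real.log p) := by
      unfold rd
      have h2 := (HP.eta_spec p s.2).2.2.1
      have h3 : (classNumber (K s.1) : ℝ) ≤ h := by exact_mod_cast hh s.1
      have h4 : (classNumber (K s.1) : ℝ) * Real.log p ≤ h * Real.log p :=
        mul_le_mul_of_nonneg_right h3 hlog.le
      linarith
    have h2 : ((a / h : ℕ) : ℝ) * h ≤ a := by exact_mod_cast Nat.div_mul_le_self a h
    calc ((a / h : ℕ) : ℝ) * rd p s ≤ (a / h : ℕ) * (2 * (h * Real.log p)) :=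
          mul_le_mul_of_nonneg_left h1 (Nat.cast_nonneg _)
      _ = 2 * ((((a / h : ℕ) : ℝ) * h) * Real.log p) := by ring
      _ ≤ 2 * (a * Real.log p) := by
          have := mul_le_mul_of_nonneg_right h2 hlog.le
          linarith
      _ = _ := by ring
  have hmem : ∀ m : Ix p K → ℤ, m ∈ Fintype.piFinset G ↔ WeilTuple p a (act p m π) := by
    intro m
    rw [Fintype.mem_piFinset, weil_act_iff' hπ']
  have hcard : (hfin.toFinset.filter fun y => (orb p K) π y).card =
      (Fintype.piFinset G).card := by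
    symm
    refine Finset.card_bij (fun m _ => act p m π) ?_ ?_ ?_
    · intro m hm
      rw [Finset.mem_filter, Set.Finite.mem_toFinset]
      exact ⟨(hmem m).1 hm, m, rfl⟩
    · intro m _ m' _ h
      exact act_inj (weil_ne hπ') m m' h
    · intro y hy
      rw [Finset.mem_filter, Set.Finite.mem_toFinset] at hy
      obtain ⟨h1, m, rfl⟩ := hy
      exact ⟨m, (hmem m).2 h1, rfl⟩
  have hbad : (hfin.toFinset.filter fun y => (orb p K) π y ∧
      ¬ (Separated y ∧ Generated y (p ^ a))).card ≤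
      ((Fintype.piFinset G).filter fun m =>
        detFun (TT p f) (fun s => crd p a π s - rd p s * m s) = 0).card := by
    have h1 : (hfin.toFinset.filter fun y => (orb p K) π y ∧
      ¬ (Separated y ∧ Generated y (p ^ a))) ⊆ ((Fintype.piFinset G).filter fun m =>
        detFun (TT p f) (fun s => crd p a π s - rd p s * m s) = 0).image
        (fun m => act p m π) := by
      intro y hy
      rw [Finset.mem_filter, Set.Finite.mem_toFinset] at hy
      obtain ⟨h1, ⟨m, rfl⟩, h2⟩ := hy
      rw [Finset.mem_image]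
      refine ⟨m, Finset.mem_filter.2 ⟨(hmem m).2 h1, ?_⟩, rfl⟩
      by_contra hne
      apply h2
      refine good_of_detFun h1 f ?_
      have h3 : crd p a (act p m π) = fun s => crd p a π s - rd p s * m s :=
        funext fun s => crd_act a m (weil_ne hπ') s
      rw [h3]
      exact hne
    exact (Finset.card_le_card h1).trans Finset.card_image_le
  have hz := zeros_le (crd p a π) (rd p) (TT p f) (fun s => (rd_pos s).ne') t ht G (a / h) hG
  calc _ ≤ _ := Nat.mul_le_mul_right _ hbad
    _ ≤ _ := hz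
    _ = _ := by rw [hcard]

/-- existence of a good tuple -/
theorem exists_good [Algebra ℚ A] [IsAlgClosed A] [Algebra.IsAlgebraic ℚ A]
    (f : Half (cj (K := K) (A := A)) → (A →+* PadicAlgCl p)) (t : Ix p K → ℝ)
    (ht : detFun (TT p f) t ≠ 0) :
    ∃ (a : ℕ) (π : ∀ i, K i), WeilTuple p a π ∧ Separated π ∧ Generated π (p ^ a) := by
  classical
  have hp : p.Prime := Fact.out
  have hlog : 0 < Real.log p := Real.log_pos (by exact_mod_cast hp.one_lt)
  obtain ⟨m, hm⟩ := exists_int_det (fun _ => 0) (rd p) (TT p f) (fun s => (rd_pos s).ne') t ht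
  obtain ⟨b, hb⟩ := exists_nat_ge (∑ s, |rd p s * m s| / Real.log p)
  have hπ : WeilTuple p (2 * b) (fun i => (p : K i) ^ b) := by
    intro i
    refine ⟨(isIntegral_natCast p).pow b, fun φ => ?_⟩
    rw [map_pow, map_natCast, norm_pow, Complex.norm_natCast]
    ring
  have hcrd : ∀ s : Ix p K, crd p (2 * b) (fun i => (p : K i) ^ b) s = 0 := by
    intro s
    unfold crd ldev
    rw [map_pow, map_natCast, norm_pow, Real.log_pow, log_norm_p]
    push_cast
    ring
  have hw : WeilTuple p (2 * b) (act p m (fun i => (p : K i) ^ b)) := by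
    rw [weil_act_iff hπ]
    intro s
    rw [hcrd, zero_sub, abs_neg]
    have h1 : |rd p s * m s| / Real.log p ≤ b :=
      (Finset.single_le_sum (f := fun s => |rd p s * m s| / Real.log p)
        (fun _ _ => by positivity) (Finset.mem_univ s)).trans hb
    rw [div_le_iff₀ hlog] at h1
    have h2 : 0 ≤ (b : ℝ) * Real.log p := by positivity
    push_cast
    linarith
  refine ⟨2 * b, _, hw, good_of_detFun hw f ?_⟩
  have h3 : crd p (2 * b) (act p m (fun i => (p : K i) ^ b)) = fun s => 0 - rd p s * m s := by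
    funext s
    rw [crd_act _ m (weil_ne hπ) s, hcrd]
  rw [h3]
  exact hm

/-- the combinatorial criterion -/
def Crit (p : ℕ) [Fact p.Prime] (K : I → Type) [∀ i, Field (K i)] [∀ i, NumberField (K i)]
    [∀ i, IsCMField (K i)] (A : Type) [Field A] [CharZero A] : Prop :=
  ∃ n : ∀ i, (K i →+* PadicAlgCl p) → ℤ, (∀ i y, n i (bar y) = - n i y) ∧
    (∀ i y y', (∀ z, ‖y z‖ = ‖y' z‖) → n i y = n i y') ∧
    ∀ b : (Σ i, K i →+* A) → ℤ, (∀ j, b (cj j) = - b j) →
      (∀ e : A →+* PadicAlgCl p, ∑ j, b j * n j.1 (e.comp j.2) = 0) → b = 0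

theorem detFun_of_crit (h : Crit p K A) :
    ∃ (f : Half (cj (K := K) (A := A)) → (A →+* PadicAlgCl p)) (t : Ix p K → ℝ),
      detFun (TT p f) t ≠ 0 := by
  classical
  obtain ⟨n, hn1, hn2, hn3⟩ := h
  let ν : (A →+* PadicAlgCl p) → (Σ i, K i →+* A) → ℚ := fun e j => (n j.1 (e.comp j.2) : ℚ)
  have hν : ∀ e j, ν e (cj j) = - ν e j := by
    intro e j
    have h1 : ((n j.1 (bar (e.comp j.2)) : ℤ) : ℚ) = - (n j.1 (e.comp j.2) : ℚ) := by
      rw [hn1]
      push_cast
      rfl
    exact h1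
  have hno : NoRel (cj (K := K) (A := A)) ν := by
    refine norel_of_int cj fun b hb hrel => hn3 b hb fun e => ?_
    have h1 := hrel e
    simp only [ν] at h1
    exact_mod_cast h1
  obtain ⟨f, hf⟩ := det_of_norel cj cj_cj' cj_ne' hν hno
  refine ⟨f, fun s => n s.1 (HP.emb p s.2), ?_⟩
  have h1 : detFun (TT p f) (fun s : Ix p K => (n s.1 (HP.emb p s.2) : ℝ)) =
      (((minor cj ν f).det : ℚ) : ℝ) := by
    unfold detFun
    have h2 : (((minor cj ν f).det : ℚ) : ℝ) = (algebraMap ℚ ℝ) (minor cj ν f).det := rfl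
    rw [h2, RingHom.map_det]
    congr 1
    ext h h'
    rw [Matrix.of_apply, RingHom.mapMatrix_apply, Matrix.map_apply]
    simp only [TT, minor, Matrix.of_apply, ν]
    rw [sum_SG p (fun s : Ix p K => (n s.1 (HP.emb p s.2) : ℝ)) (f h) h'.1]
    have h3 := HP.sum_sg p (fun y => (n h'.1.1 y : ℝ)) (fun y => by rw [hn1]; push_cast; rfl)
      (fun y y' hy => by rw [hn2 _ y y' (norm_eq_of_primeOf_eq p y y' hy)]) ((f h).comp h'.1.2)
    rw [← h3]
    simp
  rw [h1]
  exact_mod_cast hf

theorem crit_of_detFun (f : Half (cj (K := K) (A := A)) → (A →+* PadicAlgCl p))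
    (t : Ix p K → ℝ) (ht : detFun (TT p f) t ≠ 0) : Crit p K A := by
  classical
  obtain ⟨m, hm⟩ := exists_int_det (fun _ => 0) (fun _ => -1) (TT p f) (fun s => by norm_num) t ht
  have hm' : detFun (TT p f) (fun s => (m s : ℝ)) ≠ 0 := by
    convert hm using 2
    funext s
    ring
  refine ⟨fun i y => ∑ s : HP p (K i), m ⟨i, s⟩ * HP.sg p s y, ?_, ?_, ?_⟩
  · intro i y
    rw [← Finset.sum_neg_distrib]
    refine Finset.sum_congr rfl fun s _ => ?_
    rw [HP.sg_bar]
    ring
  · intro i y y' h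
    refine Finset.sum_congr rfl fun s _ => ?_
    rw [HP.sg_congr p s y y' (primeOf_eq_of_norm_eq p y y' h)]
  · intro b hb hrel
    let D : (A →+* PadicAlgCl p) → (Σ i, K i →+* A) → ℝ := fun e j =>
      ∑ s, (m s : ℝ) * SG p e j s
    have hD : ∀ e j, D e (cj j) = - D e j := by
      intro e j
      simp only [D]
      rw [sum_SG p (fun s => (m s : ℝ)), sum_SG p (fun s => (m s : ℝ)),
        ← Finset.sum_neg_distrib]
      refine Finset.sum_congr rfl fun s _ => ?_
      have h1 : (m ⟨j.1, s⟩ : ℝ) * ((HP.sg p s (bar (e.comp j.2)) : ℤ) : ℝ) =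
          -((m ⟨j.1, s⟩ : ℝ) * (HP.sg p s (e.comp j.2) : ℝ)) := by
        rw [HP.sg_bar]
        push_cast
        ring
      exact h1
    have hno : NoRel (cj (K := K) (A := A)) D := by
      refine norel_of_det cj cj_cj' cj_ne' hD f ?_
      exact hm'
    have h1 := hno (fun j => (b j : ℝ)) (fun j => by rw [hb]; push_cast; rfl) (by
      intro e
      have h2 := congrArg (Int.cast : ℤ → ℝ) (hrel e)
      push_cast at h2
      rw [← h2]
      refine Finset.sum_congr rfl fun j _ => ?_
      congr 1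
      simp only [D]
      rw [sum_SG p (fun s => (m s : ℝ))])
    funext j
    have h2 := congrFun h1 j
    simp only [Pi.zero_apply, Int.cast_eq_zero] at h2
    exact h2

theorem card_half_emb [IsAlgClosed A] : Fintype.card (Half (cj (K := K) (A := A))) =
    (∑ i, Module.finrank ℚ (K i)) / 2 := by
  rw [card_half cj cj_cj' cj_ne', Fintype.card_sigma]
  congr 1
  exact Finset.sum_congr rfl fun i _ => NumberField.Embeddings.card (K i) A

end Pool.Agent.Helper43x.ZO
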